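import Pool.Agent.SYS.SH.Nf
import Pool.Agent.SYS.SH.Out

/-!
# SYS-SL-Oth: the non planar terms of the Tutte equation are small

PROOF.  Apply `nf_up h (ε/2) 2 1` (constants `K₁ δ₁ M₁`) and `seph h (ε/2) 1 1 le_rfl` (`K₂ δ₂ M₂`); `δ := min δ₁ δ₂`, `M := max 1 (max M₁ M₂)`.  Let `Win θ δ M {m+2} F g`, so `F ≥ 1`, and `z ∈ antidiagonal m`, `z.1 + z.2 = m`.
If `z.1 = 0` or `z.2 = 0`: `muG {z.1, z.2} F (g-1) = 0` (`tutG_zero` with `Q = {z.2} ≠ 0`; for `z.2 = 0` use `Multiset.cons_swap` / `Multiset.pair_comm`) and `LL 1 {z.1} {z.2} F g = 0` (`muG {0} f e = 0` for `e ≠ 0`, `tutG_zero` with `Q = 0`).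
Otherwise `Win θ δ M {z.1, z.2} F g` (`Win.sub`, sum `m ≤ m + 2`) and `{z.1} + {z.2} = {z.1, z.2}` (`Multiset.singleton_add`), so
`F^2 muG {z.1,z.2} F (g-1) ≤ K₁ exp (ε/2 m) gam^m F^2 nu` and `F^2 LL 1 {z.1} {z.2} F g ≤ K₂ exp (ε/2 m) gam^m F^2 nu`; divide by `F^2 > 0`.  Sum over the `m + 1` elements of the antidiagonal (`Finset.sum_le_card_nsmul`, `Finset.Nat.card_antidiagonal`)
and `m + 1 ≤ (1 + 2/ε) exp (ε/2 m)` (`Real.add_one_le_exp`).  `gam x ≥ 0`, `nu ≥ 0` as in `SH/Nf`.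
-/

namespace SYS.Num

open Finset Real

variable {θ x : ℝ}

private theorem oth_gam (x : ℝ) : 0 ≤ gam x := by
  unfold gam AA
  have h1 : 0 < cosh x := Real.cosh_pos x
  have h2 : 0 ≤ rr x := by
    unfold rr
    exact Real.sqrt_nonneg _
  exact div_nonneg (div_nonneg (by linarith) (by linarith)) (Real.sqrt_nonneg _)

private theorem oth_nn (n g : ℕ) : 0 ≤ SST.nu n g := by
  unfold SST.nu
  exact div_nonneg (Nat.cast_nonneg _) (Nat.cast_nonneg _)

private theorem oth_pair_zero_left (b F g : ℕ) : muG {0, b} F g = 0 := by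
  have h := tutG_zero {b} F g
  rw [if_neg (fun h => by
    have h1 := h.1
    exact Multiset.singleton_ne_zero b h1)] at h
  exact h

private theorem oth_pair_zero_right (a F g : ℕ) : muG {a, 0} F g = 0 := by
  rw [Multiset.pair_comm]
  exact oth_pair_zero_left a F g

private theorem oth_single_zero (F e : ℕ) (he : e ≠ 0) : muG {0} F e = 0 := by
  have h := tutG_zero 0 F e
  rw [if_neg (fun h => he h.2.2)] at h
  exact h

private theorem oth_LL_left (b F g : ℕ) : LL 1 {0} {b} F g = 0 := by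
  unfold LL
  refine Finset.sum_eq_zero fun f _ => Finset.sum_eq_zero fun e _ => ?_
  split_ifs with h
  · have h1 : Multiset.card ({0} : Multiset ℕ) = 1 := Multiset.card_singleton 0
    rw [h1] at h
    rw [oth_single_zero f.1 e.1 (by omega), zero_mul]
  · rfl

private theorem oth_LL_right (a F g : ℕ) : LL 1 {a} {0} F g = 0 := by
  rw [LL_comm]
  exact oth_LL_left a F g

theorem oth_le (h : Par θ x) {ε : ℝ} (hε : 0 < ε) : ∃ (K δ : ℝ) (M : ℕ), 0 < K ∧ 0 < δ ∧
    ∀ (m F g : ℕ), Win θ δ M {m + 2} F g →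
      ∑ z ∈ antidiagonal m, muG {z.1, z.2} F (g - 1) + ∑ z ∈ antidiagonal m, LL 1 {z.1} {z.2} F g ≤
        K * exp (ε * m) * gam x ^ m * SST.nu ((F + 1) / 2) g := by
  have hε2 : 0 < ε / 2 := by linarith
  obtain ⟨K₁, δ₁, M₁, hK₁, hδ₁, H1⟩ := nf_up h hε2 2 1
  obtain ⟨K₂, δ₂, M₂, hK₂, hδ₂, H2⟩ := seph h hε2 1 1 le_rfl
  refine ⟨(1 + 2 / ε) * (K₁ + K₂), min δ₁ δ₂, max 1 (max M₁ M₂), by positivity,
    lt_min hδ₁ hδ₂, ?_⟩
  intro m F g hW
  have hF1 : 1 ≤ F := (le_max_left _ _).trans hW.1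
  have hF0 : (0 : ℝ) < F := by exact_mod_cast hF1
  have hF2 : (0 : ℝ) < (F : ℝ) ^ 2 := by positivity
  have hm0 : (0 : ℝ) ≤ m := Nat.cast_nonneg m
  have hg0 : 0 ≤ gam x ^ m := pow_nonneg (oth_gam x) m
  have hnn := oth_nn ((F + 1) / 2) g
  obtain ⟨B, hB⟩ : ∃ B : ℝ, B = exp (ε / 2 * m) * gam x ^ m * SST.nu ((F + 1) / 2) g := ⟨_, rfl⟩
  have hB0 : 0 ≤ B := by
    rw [hB]
    positivity
  have hwin : ∀ a b : ℕ, a + b = m → a ≠ 0 → b ≠ 0 →
      Win θ (min δ₁ δ₂) (max 1 (max M₁ M₂)) {a, b} F g := by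
    intro a b hab ha hb
    refine hW.sub ?_ ?_
    · have h1 : ({a, b} : Multiset ℕ).sum = a + b := by
        rw [Multiset.insert_eq_cons, Multiset.sum_cons, Multiset.sum_singleton]
      rw [h1, Multiset.sum_singleton]
      omega
    · intro q hq
      rw [Multiset.insert_eq_cons, Multiset.mem_cons, Multiset.mem_singleton] at hq
      omega
  have e1 : ∀ z ∈ antidiagonal m, muG {z.1, z.2} F (g - 1) ≤ K₁ * B := by
    intro z hz
    have hz' : z.1 + z.2 = m := Finset.HasAntidiagonal.mem_antidiagonal.1 hz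
    by_cases ha : z.1 = 0
    · rw [ha, oth_pair_zero_left]
      positivity
    by_cases hb : z.2 = 0
    · rw [hb, oth_pair_zero_right]
      positivity
    have hw := (hwin z.1 z.2 hz' ha hb).mono (min_le_left _ _)
      ((le_max_left M₁ M₂).trans (le_max_right 1 _))
    have hs : ({z.1, z.2} : Multiset ℕ).sum = m := by
      rw [Multiset.insert_eq_cons, Multiset.sum_cons, Multiset.sum_singleton, hz']
    have hc : Multiset.card ({z.1, z.2} : Multiset ℕ) = 2 := by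
      rw [Multiset.insert_eq_cons, Multiset.card_cons, Multiset.card_singleton]
    have h1 := H1 {z.1, z.2} F g (by
      rw [Multiset.insert_eq_cons]
      exact Multiset.cons_ne_zero) hc.le hw
    rw [hs, hc] at h1
    have h2 : (F : ℝ) ^ 2 * muG {z.1, z.2} F (g - 1) ≤ (F : ℝ) ^ 2 * (K₁ * B) := by
      refine h1.trans (le_of_eq ?_)
      rw [hB]
      ring
    exact le_of_mul_le_mul_left h2 hF2
  have e2 : ∀ z ∈ antidiagonal m, LL 1 {z.1} {z.2} F g ≤ K₂ * B := by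
    intro z hz
    have hz' : z.1 + z.2 = m := Finset.HasAntidiagonal.mem_antidiagonal.1 hz
    by_cases ha : z.1 = 0
    · rw [ha, oth_LL_left]
      positivity
    by_cases hb : z.2 = 0
    · rw [hb, oth_LL_right]
      positivity
    have hw := (hwin z.1 z.2 hz' ha hb).mono (min_le_right _ _)
      ((le_max_right M₁ M₂).trans (le_max_right 1 _))
    have hs : (({z.1} : Multiset ℕ) + {z.2}).sum = m := by
      rw [Multiset.sum_add, Multiset.sum_singleton, Multiset.sum_singleton, hz']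
    have hcons : ({z.1} : Multiset ℕ) + {z.2} = {z.1, z.2} := by
      rw [Multiset.singleton_add, Multiset.insert_eq_cons]
    have h1 := H2 {z.1} {z.2} F g (Multiset.singleton_ne_zero _) (Multiset.singleton_ne_zero _)
      (Multiset.card_singleton _).le (Multiset.card_singleton _).le (by
        rw [hcons]
        exact hw)
    rw [hs, Multiset.card_singleton, Multiset.card_singleton] at h1
    have h2 : (F : ℝ) ^ 2 * LL 1 {z.1} {z.2} F g ≤ (F : ℝ) ^ 2 * (K₂ * B) := by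
      refine h1.trans (le_of_eq ?_)
      rw [hB]
      ring
    exact le_of_mul_le_mul_left h2 hF2
  have s1 : ∑ z ∈ antidiagonal m, muG {z.1, z.2} F (g - 1) ≤ ((m : ℝ) + 1) * (K₁ * B) := by
    refine (Finset.sum_le_card_nsmul _ _ _ e1).trans (le_of_eq ?_)
    rw [Finset.Nat.card_antidiagonal, nsmul_eq_mul]
    push_cast
    ring
  have s2 : ∑ z ∈ antidiagonal m, LL 1 {z.1} {z.2} F g ≤ ((m : ℝ) + 1) * (K₂ * B) := by
    refine (Finset.sum_le_card_nsmul _ _ _ e2).trans (le_of_eq ?_)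
    rw [Finset.Nat.card_antidiagonal, nsmul_eq_mul]
    push_cast
    ring
  have hexp1 : 1 ≤ exp (ε / 2 * m) := Real.one_le_exp (by positivity)
  have hexp2 : (m : ℝ) ≤ 2 / ε * exp (ε / 2 * m) := by
    have h1 := Real.add_one_le_exp (ε / 2 * m)
    have h2 : (m : ℝ) = 2 / ε * (ε / 2 * m) := by
      field_simp
    calc (m : ℝ) = 2 / ε * (ε / 2 * m) := h2
      _ ≤ 2 / ε * exp (ε / 2 * m) := mul_le_mul_of_nonneg_left (by linarith) (by positivity)
  have hm1 : (m : ℝ) + 1 ≤ (1 + 2 / ε) * exp (ε / 2 * m) := by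
    rw [add_mul, one_mul]
    linarith
  have hee : exp (ε / 2 * m) * exp (ε / 2 * m) = exp (ε * m) := by
    rw [← Real.exp_add]
    congr 1
    ring
  calc _ ≤ ((m : ℝ) + 1) * (K₁ * B) + ((m : ℝ) + 1) * (K₂ * B) := add_le_add s1 s2
    _ = ((m : ℝ) + 1) * ((K₁ + K₂) * B) := by ring
    _ ≤ ((1 + 2 / ε) * exp (ε / 2 * m)) * ((K₁ + K₂) * B) :=
        mul_le_mul_of_nonneg_right hm1 (by positivity)
    _ = (1 + 2 / ε) * (K₁ + K₂) * (exp (ε / 2 * m) * exp (ε / 2 * m)) * gam x ^ m *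
        SST.nu ((F + 1) / 2) g := by
        rw [hB]
        ring
    _ = _ := by rw [hee]

end SYS.Num
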