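import Pool.Agent.SYS.SL.Low

/-!
# SYS-SL-Clos: THE FINAL RATIOS (closings of a hidden map with one hole)
-/

namespace SYS.Num

open Finset Real Filter Topology

variable {θ x : ℝ}

private theorem cl_log (A : ℝ) {c : ℝ} (hc : 0 < c) : ∀ᶠ n : ℕ in atTop, |A| * log n ≤ c * n := by
  have hA : (0 : ℝ) < |A| + 1 := by positivity
  have h1 := (Real.isLittleO_log_id_atTop.comp_tendsto (tendsto_natCast_atTop_atTop (R := ℝ))).def
    (c := c / (|A| + 1)) (by positivity)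
  filter_upwards [h1] with n hn
  have h2 : log (n : ℝ) ≤ c / (|A| + 1) * n := by
    have h3 : |log (n : ℝ)| ≤ c / (|A| + 1) * |(n : ℝ)| := hn
    rw [Nat.abs_cast] at h3
    exact (le_abs_self _).trans h3
  have h3 : |A| * log n ≤ |A| * (c / (|A| + 1) * n) := mul_le_mul_of_nonneg_left h2 (abs_nonneg A)
  have h4 : |A| * (c / (|A| + 1) * n) ≤ (|A| + 1) * (c / (|A| + 1) * n) :=
    mul_le_mul_of_nonneg_right (by linarith) (by positivity)
  have h5 : (|A| + 1) * (c / (|A| + 1) * n) = c * n := by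
    field_simp
  linarith

private theorem cl_ev (hθ : 0 < θ) (hθ1 : θ < 1 / 2) {g : ℕ → ℕ}
    (hg : Tendsto (fun n => (g n : ℝ) / n) atTop (𝓝 θ)) (A : ℝ) {δ : ℝ} (hδ : 0 < δ) (M : ℕ) :
    ∀ᶠ n : ℕ in atTop, ∀ F : ℕ, F ≤ 2 * n → 2 * (n : ℝ) ≤ F + A * log n →
      n ≤ F ∧ M ≤ F ∧ |2 * (g n : ℝ) - θ * F| ≤ δ * F ∧
        |2 * ((g n - 1 : ℕ) : ℝ) - θ * F| ≤ δ * F ∧ A * log n ≤ δ * F := by
  obtain ⟨c, hc⟩ : ∃ c : ℝ, c = min δ 1 / 16 := ⟨_, rfl⟩
  have hm : 0 < min δ 1 := lt_min hδ one_pos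
  have hc0 : 0 < c := by
    rw [hc]
    positivity
  have hc1 : 16 * c ≤ δ := by
    rw [hc]
    have := min_le_left δ 1
    linarith
  have hc2 : 16 * c ≤ 1 := by
    rw [hc]
    have := min_le_right δ 1
    linarith
  have h2 : ∀ᶠ n : ℕ in atTop, |(g n : ℝ) / n - θ| < c := by
    have h3 := Metric.tendsto_nhds.1 hg c hc0
    simp only [Real.dist_eq] at h3
    exact h3
  filter_upwards [cl_log A hc0, h2, eventually_ge_atTop M, eventually_ge_atTop (⌈2 / c⌉₊ + 1)]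
    with n h3 h4 h5 h6
  intro F hF hF'
  have hn1 : 1 ≤ n := by omega
  have hn0 : (0 : ℝ) < n := by exact_mod_cast hn1
  have hlog : 0 ≤ log (n : ℝ) := Real.log_nonneg (by exact_mod_cast hn1)
  have e1 : A * log n ≤ c * n := (mul_le_mul_of_nonneg_right (le_abs_self A) hlog).trans h3
  have e2 : |(g n : ℝ) - θ * n| ≤ c * n := by
    have e3 : (g n : ℝ) - θ * n = ((g n : ℝ) / n - θ) * n := by
      field_simp
    rw [e3, abs_mul, abs_of_pos hn0]
    exact mul_le_mul_of_nonneg_right h4.le hn0.le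
  have e4 : 2 ≤ c * n := by
    have e5 : 2 / c ≤ (⌈2 / c⌉₊ : ℝ) := Nat.le_ceil _
    have e6 : (⌈2 / c⌉₊ : ℝ) + 1 ≤ n := by exact_mod_cast h6
    have e7 : 2 / c ≤ n := by linarith
    rw [div_le_iff₀ hc0] at e7
    linarith
  have hFr : (F : ℝ) ≤ 2 * n := by exact_mod_cast hF
  have hcn : c * n ≤ 1 / 16 * n := mul_le_mul_of_nonneg_right (by linarith) hn0.le
  have hnF : (n : ℝ) ≤ F := by linarith
  have hnF' : n ≤ F := by exact_mod_cast hnF
  have hδF : 16 * (c * n) ≤ δ * F := by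
    have e8 : 16 * c * n ≤ δ * F := mul_le_mul hc1 hnF hn0.le hδ.le
    linarith
  have e9 : 0 ≤ θ * (2 * n - F) := mul_nonneg hθ.le (by linarith)
  have e10 : θ * (2 * n - F) ≤ 1 * (c * n) := mul_le_mul (by linarith) (by linarith) (by linarith) (by norm_num)
  have e11 := abs_le.1 e2
  refine ⟨hnF', h5.trans hnF', ?_, ?_, ?_⟩
  · rw [abs_le]
    constructor <;> linarith
  · have e12 : ((g n - 1 : ℕ) : ℝ) ≤ g n := by exact_mod_cast Nat.sub_le _ _
    have e13 : (g n : ℝ) ≤ ((g n - 1 : ℕ) : ℝ) + 1 := by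
      have : g n ≤ g n - 1 + 1 := by omega
      exact_mod_cast this
    rw [abs_le]
    constructor <;> linarith
  · linarith

private theorem cl_pow (A : ℝ) {ε ε₁ : ℝ} (hε : 0 < ε) (hε₁ : ε₁ = ε / (8 * (|A| + 1))) (K : ℝ) :
    ∀ᶠ n : ℕ in atTop, ∀ P : ℕ, (P : ℝ) ≤ A * log n →
      K * (exp (ε₁ * P) * exp (ε₁ * P)) ≤ (n : ℝ) ^ ε := by
  have h1 : Tendsto (fun n : ℕ => (n : ℝ) ^ (ε / 2)) atTop atTop :=
    (tendsto_rpow_atTop (by positivity)).comp tendsto_natCast_atTop_atTop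
  have hA : (0 : ℝ) < |A| + 1 := by positivity
  have h0 : 0 < ε₁ := by
    rw [hε₁]
    positivity
  have h00 : ε₁ * |A| ≤ ε / 8 := by
    have e1 : ε₁ * (|A| + 1) = ε / 8 := by
      rw [hε₁]
      field_simp
    nlinarith
  filter_upwards [h1.eventually_ge_atTop |K|, eventually_ge_atTop 1] with n h2 h3
  intro P hP
  have hn0 : (0 : ℝ) < n := by exact_mod_cast h3
  have hlog : 0 ≤ log (n : ℝ) := Real.log_nonneg (by exact_mod_cast h3)
  have h4 : (P : ℝ) ≤ |A| * log n := hP.trans (mul_le_mul_of_nonneg_right (le_abs_self A) hlog)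
  have h5 : ε₁ * P ≤ ε / 8 * log n := by
    calc ε₁ * (P : ℝ) ≤ ε₁ * (|A| * log n) := mul_le_mul_of_nonneg_left h4 h0.le
      _ = ε₁ * |A| * log n := by ring
      _ ≤ ε / 8 * log n := mul_le_mul_of_nonneg_right h00 hlog
  have h6 : exp (ε₁ * P) * exp (ε₁ * P) ≤ (n : ℝ) ^ (ε / 2) := by
    rw [← Real.exp_add, Real.rpow_def_of_pos hn0]
    refine Real.exp_le_exp.2 ?_
    have h7 : 0 ≤ ε * log n := by positivity
    nlinarith
  have h7 : (n : ℝ) ^ ε = (n : ℝ) ^ (ε / 2) * (n : ℝ) ^ (ε / 2) := by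
    rw [← Real.rpow_add hn0]
    ring_nf
  rw [h7]
  have h8 : 0 ≤ exp (ε₁ * P) * exp (ε₁ * P) := by positivity
  exact (mul_le_mul_of_nonneg_right (le_abs_self K) h8).trans
    (mul_le_mul h2 h6 h8 (by positivity))

private theorem cl_alg {F X K₁ K₀ E G N mu : ℝ} {i j : ℕ} (hF : 0 < F) (hK₁ : 0 ≤ K₁) (hE : 0 ≤ E)
    (h1 : F ^ (i + j) * X ≤ K₁ * E * G * F ^ (1 + j) * N) (h2 : G * F * N ≤ K₀ * E * mu) :
    F ^ i * X ≤ K₀ * K₁ * (E * E) * mu := by
  have hFj : 0 < F ^ j := pow_pos hF j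
  refine le_of_mul_le_mul_left ?_ hFj
  calc F ^ j * (F ^ i * X) = F ^ (i + j) * X := by ring
    _ ≤ K₁ * E * G * F ^ (1 + j) * N := h1
    _ = (K₁ * E * F ^ j) * (G * F * N) := by ring
    _ ≤ (K₁ * E * F ^ j) * (K₀ * E * mu) := mul_le_mul_of_nonneg_left h2 (by positivity)
    _ = F ^ j * (K₀ * K₁ * (E * E) * mu) := by ring

private theorem cl_fin {n F X mu L ε e : ℝ} {i : ℕ} (hn : 1 ≤ n) (hF : n ≤ F) (hX : 0 ≤ X)
    (hmu : 0 ≤ mu) (h : F ^ i * X ≤ L * mu) (hL : L ≤ n ^ ε) (he : e = -(i : ℝ) + ε) :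
    X ≤ n ^ e * mu := by
  have hn0 : 0 < n := by linarith
  have h1 : n ^ i * X ≤ F ^ i * X := mul_le_mul_of_nonneg_right (pow_le_pow_left₀ hn0.le hF i) hX
  have h2 : L * mu ≤ n ^ ε * mu := mul_le_mul_of_nonneg_right hL hmu
  have h3 : n ^ e = (n ^ i)⁻¹ * n ^ ε := by
    rw [he, Real.rpow_add hn0, Real.rpow_neg hn0.le, Real.rpow_natCast]
  have h4 : 0 < n ^ i := pow_pos hn0 i
  rw [h3, mul_assoc, inv_mul_eq_div, le_div_iff₀ h4]
  linarith

private theorem cl_LL_nonneg (a : ℕ) (P₁ P₂ : Multiset ℕ) (F g : ℕ) : 0 ≤ LL a P₁ P₂ F g := by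
  unfold LL
  refine Finset.sum_nonneg fun f _ => Finset.sum_nonneg fun e _ => ?_
  split_ifs
  · exact mul_nonneg (muG_nonneg _ _ _) (muG_nonneg _ _ _)
  · exact le_rfl

private theorem cl_LL_odd (a : ℕ) (P₁ P₂ : Multiset ℕ) (F g : ℕ)
    (h : ¬ Even (F + (P₁.sum + P₂.sum))) : LL a P₁ P₂ F g = 0 := by
  unfold LL
  refine Finset.sum_eq_zero fun f hf => Finset.sum_eq_zero fun e _ => ?_
  have hf := Finset.HasAntidiagonal.mem_antidiagonal.1 hf
  split_ifs
  · by_cases h1 : Even (f.1 + P₁.sum)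
    · by_cases h2 : Even (f.2 + P₂.sum)
      · exfalso
        apply h
        rw [← hf]
        have h3 : f.1 + f.2 + (P₁.sum + P₂.sum) = (f.1 + P₁.sum) + (f.2 + P₂.sum) := by ring
        rw [h3]
        exact h1.add h2
      · rw [muG_odd h2, mul_zero]
    · rw [muG_odd h1, zero_mul]
  · rfl

private theorem cl_gam (x : ℝ) : 0 ≤ gam x := by
  unfold gam AA
  have h1 : 0 < cosh x := Real.cosh_pos x
  have h2 : 0 ≤ rr x := by
    unfold rr
    exact Real.sqrt_nonneg _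
  exact div_nonneg (div_nonneg (by linarith) (by linarith)) (Real.sqrt_nonneg _)

theorem clos (h : Par θ x) {g : ℕ → ℕ} (hg : Tendsto (fun n => (g n : ℝ) / n) atTop (𝓝 θ)) (A : ℝ) {ε : ℝ}
    (hε : 0 < ε) : ∀ᶠ n : ℕ in atTop, ∀ F P : ℕ, F ≤ 2 * n → 2 * (n : ℝ) ≤ F + A * log n → 1 ≤ P →
      (P : ℝ) ≤ A * log n →
      (∀ p₁ p₂ : ℕ, 1 ≤ p₁ → 1 ≤ p₂ → p₁ + p₂ = P →
        LL 2 {p₁} {p₂} F (g n) ≤ (n : ℝ) ^ (-2 + ε) * muG {P} F (g n) ∧
        muG {p₁, p₂} F (g n - 1) ≤ (n : ℝ) ^ (-1 + ε) * muG {P} F (g n)) ∧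
      (∀ p₁ p₂ p₃ : ℕ, 1 ≤ p₁ → 1 ≤ p₂ → 1 ≤ p₃ → p₁ + p₂ + p₃ = P →
        muG {p₁, p₂, p₃} F (g n - 2) ≤ (n : ℝ) ^ (-2 + ε) * muG {P} F (g n) ∧
        LL 1 {p₁} {p₂, p₃} F (g n - 1) ≤ (n : ℝ) ^ (-2 + ε) * muG {P} F (g n)) ∧
      muG {P} F (g n - 1) ≤ (n : ℝ) ^ (-2 + ε) * muG {P} F (g n) := by
  have hθ := h.1
  have hθ1 := h.2.1
  obtain ⟨ε₁, hε₁⟩ : ∃ e : ℝ, e = ε / (8 * (|A| + 1)) := ⟨_, rfl⟩
  have hε₁0 : 0 < ε₁ := by
    rw [hε₁]
    positivity
  obtain ⟨K₀, δ₀, M₀, hK₀, hδ₀, H₀⟩ := low h hε₁0 |A|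
  obtain ⟨K₁, δ₁, M₁, hK₁, hδ₁, H₁⟩ := nf_up h hε₁0 3 1
  obtain ⟨K₂, δ₂, M₂, hK₂, hδ₂, H₂⟩ := nf_up h hε₁0 3 2
  obtain ⟨K₃, δ₃, M₃, hK₃, hδ₃, H₃⟩ := seph h hε₁0 2 2 (by norm_num)
  obtain ⟨K₄, δ₄, M₄, hK₄, hδ₄, H₄⟩ := seph h hε₁0 2 1 le_rfl
  obtain ⟨K₅, δ₅, M₅, hK₅, hδ₅, H₅⟩ := nu_gen h 1
  filter_upwards [cl_ev hθ hθ1 hg A hδ₀ M₀, cl_ev hθ hθ1 hg A hδ₁ M₁, cl_ev hθ hθ1 hg A hδ₂ M₂,
    cl_ev hθ hθ1 hg A hδ₃ M₃, cl_ev hθ hθ1 hg A hδ₄ M₄, cl_ev hθ hθ1 hg A hδ₅ M₅,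
    cl_pow A hε hε₁ (K₀ * K₁), cl_pow A hε hε₁ (K₀ * K₂), cl_pow A hε hε₁ (K₀ * K₃),
    cl_pow A hε hε₁ (K₀ * (K₄ * K₅)), eventually_ge_atTop 1] with n a0 a1 a2 a3 a4 a5 b1 b2 b3 b4 hn
  intro F P hF hF' hP hPA
  have hn1 : (1 : ℝ) ≤ n := by exact_mod_cast hn
  have hlog : 0 ≤ log (n : ℝ) := Real.log_nonneg hn1
  obtain ⟨hnF, w0, v0, -, u0⟩ := a0 F hF hF'
  obtain ⟨-, w1, v1, -, u1⟩ := a1 F hF hF'
  obtain ⟨-, w2, v2, -, u2⟩ := a2 F hF hF'
  obtain ⟨-, w3, v3, -, u3⟩ := a3 F hF hF'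
  obtain ⟨-, w4, -, v4, u4⟩ := a4 F hF hF'
  obtain ⟨-, w5, v5, -, -⟩ := a5 F hF hF'
  have hnF1 : (n : ℝ) ≤ F := by exact_mod_cast hnF
  have hF0 : (0 : ℝ) < F := by linarith
  have hmu : 0 ≤ muG {P} F (g n) := muG_nonneg _ _ _
  have hrp : ∀ e : ℝ, 0 ≤ (n : ℝ) ^ e := fun e => Real.rpow_nonneg (by linarith) e
  by_cases hpar : Even (F + P)
  swap
  · -- odd
    have z : ∀ e : ℝ, 0 ≤ (n : ℝ) ^ e * muG {P} F (g n) := fun e => mul_nonneg (hrp e) hmu
    refine ⟨fun p₁ p₂ _ _ h12 => ⟨?_, ?_⟩, fun p₁ p₂ p₃ _ _ _ h123 => ⟨?_, ?_⟩, ?_⟩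
    · rw [cl_LL_odd 2 {p₁} {p₂} F (g n) (by
        rw [Multiset.sum_singleton, Multiset.sum_singleton, h12]
        exact hpar)]
      exact z _
    · rw [muG_odd (P := {p₁, p₂}) (by
        rw [Multiset.insert_eq_cons, Multiset.sum_cons, Multiset.sum_singleton, h12]
        exact hpar)]
      exact z _
    · rw [muG_odd (P := {p₁, p₂, p₃}) (by
        rw [Multiset.insert_eq_cons, Multiset.insert_eq_cons, Multiset.sum_cons, Multiset.sum_cons,
          Multiset.sum_singleton, ← add_assoc p₁, h123]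
        exact hpar)]
      exact z _
    · rw [cl_LL_odd 1 {p₁} {p₂, p₃} F (g n - 1) (by
        rw [Multiset.insert_eq_cons, Multiset.sum_cons, Multiset.sum_singleton,
          Multiset.sum_singleton, ← add_assoc p₁, h123]
        exact hpar)]
      exact z _
    · rw [muG_odd (P := {P}) (by
        rw [Multiset.sum_singleton]
        exact hpar)]
      exact z _
  · -- even
    obtain ⟨N, hN⟩ : ∃ N : ℝ, N = SST.nu ((F + 1) / 2) (g n) := ⟨_, rfl⟩
    obtain ⟨E, hE⟩ : ∃ E : ℝ, E = exp (ε₁ * P) := ⟨_, rfl⟩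
    have hE0 : 0 ≤ E := by
      rw [hE]
      positivity
    have hP0 : (P : ℝ) ≤ |A| * log F := by
      have h1 : log (n : ℝ) ≤ log F := Real.log_le_log (by linarith) hnF1
      calc (P : ℝ) ≤ A * log n := hPA
        _ ≤ |A| * log n := mul_le_mul_of_nonneg_right (le_abs_self A) hlog
        _ ≤ |A| * log F := mul_le_mul_of_nonneg_left h1 (abs_nonneg A)
    have hw : ∀ {δ : ℝ} {M : ℕ} {Q : Multiset ℕ} {G : ℕ}, M ≤ F → |2 * (G : ℝ) - θ * F| ≤ δ * F →
        A * log n ≤ δ * F → Q.sum = P → (∀ q ∈ Q, 1 ≤ q) → Win θ δ M Q F G := by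
      intro δ M Q G h1 h2 h3 h4 h5
      refine ⟨h1, h2, ?_, h5⟩
      rw [h4]
      exact hPA.trans h3
    have hlow := H₀ P F (g n) (hw w0 v0 u0 (Multiset.sum_singleton P) (by
      intro q hq
      rw [Multiset.mem_singleton.1 hq]
      exact hP)) hP0 hpar
    rw [← hN, ← hE] at hlow
    have hb1 := b1 P hPA
    have hb2 := b2 P hPA
    have hb3 := b3 P hPA
    have hb4 := b4 P hPA
    rw [← hE] at hb1 hb2 hb3 hb4
    refine ⟨fun p₁ p₂ hp₁ hp₂ h12 => ⟨?_, ?_⟩, fun p₁ p₂ p₃ hp₁ hp₂ hp₃ h123 => ⟨?_, ?_⟩, ?_⟩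
    · have hs : ({p₁} + {p₂} : Multiset ℕ).sum = P := by
        rw [Multiset.sum_add, Multiset.sum_singleton, Multiset.sum_singleton, h12]
      have h1 := H₃ {p₁} {p₂} F (g n) (Multiset.singleton_ne_zero _) (Multiset.singleton_ne_zero _)
        (by rw [Multiset.card_singleton]; norm_num) (by rw [Multiset.card_singleton]; norm_num)
        (hw w3 v3 u3 hs (by
          intro q hq
          rcases Multiset.mem_add.1 hq with hq | hq
          · rw [Multiset.mem_singleton.1 hq]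
            exact hp₁
          · rw [Multiset.mem_singleton.1 hq]
            exact hp₂))
      rw [hs, ← hN, ← hE, Multiset.card_singleton, Multiset.card_singleton] at h1
      exact cl_fin (i := 2) hn1 hnF1 (cl_LL_nonneg _ _ _ _ _) hmu
        (cl_alg (i := 2) (j := 1) hF0 hK₃.le hE0 h1 hlow) hb3 (by norm_num)
    · have hs : ({p₁, p₂} : Multiset ℕ).sum = P := by
        rw [Multiset.insert_eq_cons, Multiset.sum_cons, Multiset.sum_singleton, h12]
      have h1 := H₁ {p₁, p₂} F (g n) (Multiset.cons_ne_zero) (by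
          rw [Multiset.insert_eq_cons, Multiset.card_cons, Multiset.card_singleton]
          norm_num)
        (hw w1 v1 u1 hs (by
          intro q hq
          rw [Multiset.insert_eq_cons] at hq
          rcases Multiset.mem_cons.1 hq with hq | hq
          · rw [hq]
            exact hp₁
          · rw [Multiset.mem_singleton.1 hq]
            exact hp₂))
      have hcd : Multiset.card ({p₁, p₂} : Multiset ℕ) = 1 + 1 := by
        rw [Multiset.insert_eq_cons, Multiset.card_cons, Multiset.card_singleton]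
      rw [hs, ← hN, ← hE, hcd] at h1
      exact cl_fin (i := 1) hn1 hnF1 (muG_nonneg _ _ _) hmu
        (cl_alg (i := 1) (j := 1) hF0 hK₁.le hE0 h1 hlow) hb1 (by norm_num)
    · have hs : ({p₁, p₂, p₃} : Multiset ℕ).sum = P := by
        rw [Multiset.insert_eq_cons, Multiset.insert_eq_cons, Multiset.sum_cons, Multiset.sum_cons,
          Multiset.sum_singleton, ← add_assoc p₁, h123]
      have hcd : Multiset.card ({p₁, p₂, p₃} : Multiset ℕ) = 1 + 2 := by
        rw [Multiset.insert_eq_cons, Multiset.insert_eq_cons, Multiset.card_cons, Multiset.card_cons,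
          Multiset.card_singleton]
      have h1 := H₂ {p₁, p₂, p₃} F (g n) (Multiset.cons_ne_zero) (by
          rw [hcd])
        (hw w2 v2 u2 hs (by
          intro q hq
          rw [Multiset.insert_eq_cons, Multiset.insert_eq_cons] at hq
          rcases Multiset.mem_cons.1 hq with hq | hq
          · rw [hq]
            exact hp₁
          · rcases Multiset.mem_cons.1 hq with hq | hq
            · rw [hq]
              exact hp₂
            · rw [Multiset.mem_singleton.1 hq]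
              exact hp₃))
      rw [hs, ← hN, ← hE, hcd] at h1
      exact cl_fin (i := 2) hn1 hnF1 (muG_nonneg _ _ _) hmu
        (cl_alg (i := 2) (j := 2) hF0 hK₂.le hE0 h1 hlow) hb2 (by norm_num)
    · have hs : ({p₁} + {p₂, p₃} : Multiset ℕ).sum = P := by
        rw [Multiset.sum_add, Multiset.sum_singleton, Multiset.insert_eq_cons, Multiset.sum_cons,
          Multiset.sum_singleton, ← add_assoc p₁, h123]
      have hcd : Multiset.card ({p₂, p₃} : Multiset ℕ) = 2 := by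
        rw [Multiset.insert_eq_cons, Multiset.card_cons, Multiset.card_singleton]
      have h1 := H₄ {p₁} {p₂, p₃} F (g n - 1) (Multiset.singleton_ne_zero _)
        (Multiset.cons_ne_zero)
        (by rw [Multiset.card_singleton]; norm_num) (by rw [hcd])
        (hw w4 v4 u4 hs (by
          intro q hq
          rcases Multiset.mem_add.1 hq with hq | hq
          · rw [Multiset.mem_singleton.1 hq]
            exact hp₁
          · rw [Multiset.insert_eq_cons] at hq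
            rcases Multiset.mem_cons.1 hq with hq | hq
            · rw [hq]
              exact hp₂
            · rw [Multiset.mem_singleton.1 hq]
              exact hp₃))
      have h2 := H₅ F (g n) w5 v5
      rw [← hN] at h2
      rw [hs, ← hE, Multiset.card_singleton, hcd] at h1
      have h3 : (F : ℝ) ^ (2 + 2) * LL 1 {p₁} {p₂, p₃} F (g n - 1) ≤
          (K₄ * K₅) * E * gam x ^ P * (F : ℝ) ^ (1 + 2) * N := by
        calc (F : ℝ) ^ (2 + 2) * LL 1 {p₁} {p₂, p₃} F (g n - 1)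
            = (F : ℝ) ^ 2 * ((F : ℝ) ^ (1 + 1) * LL 1 {p₁} {p₂, p₃} F (g n - 1)) := by ring
          _ ≤ (F : ℝ) ^ 2 * (K₄ * E * gam x ^ P * (F : ℝ) ^ (1 + 2) *
                SST.nu ((F + 1) / 2) (g n - 1)) := mul_le_mul_of_nonneg_left h1 (by positivity)
          _ = (K₄ * E * gam x ^ P * (F : ℝ) ^ (1 + 2)) *
                ((F : ℝ) ^ (2 * 1) * SST.nu ((F + 1) / 2) (g n - 1)) := by ring
          _ ≤ (K₄ * E * gam x ^ P * (F : ℝ) ^ (1 + 2)) * (K₅ * N) := by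
              refine mul_le_mul_of_nonneg_left h2 ?_
              have := cl_gam x
              positivity
          _ = _ := by ring
      exact cl_fin (i := 2) hn1 hnF1 (cl_LL_nonneg _ _ _ _ _) hmu
        (cl_alg (i := 2) (j := 2) hF0 (by positivity) hE0 h3 hlow) hb4 (by norm_num)
    · have h1 := H₁ {P} F (g n) (Multiset.singleton_ne_zero _) (by
          rw [Multiset.card_singleton]
          norm_num)
        (hw w1 v1 u1 (Multiset.sum_singleton P) (by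
          intro q hq
          rw [Multiset.mem_singleton.1 hq]
          exact hP))
      rw [Multiset.sum_singleton, ← hN, ← hE, Multiset.card_singleton] at h1
      exact cl_fin (i := 2) hn1 hnF1 (muG_nonneg _ _ _) hmu
        (cl_alg (i := 2) (j := 0) hF0 hK₁.le hE0 h1 hlow) hb1 (by norm_num)

end SYS.Num
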