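import Pool.Agent.SYS.RL.All
import Pool.Agent.SYS.PL.LawB

/-!
# SYS-SL-FarW: large swallowed discs

PROOF.  (1) A bound for `W`: `expm hx` gives `δ₀ > 0` with `∑ qq x k a exp (δ₀ (k + a)) < ∞`, so there is `C₁` with `qq x k a exp (δ₀ (k+a)) ≤ C₁` for all `k a` (`Summable.le_tsum` / `le_hasSum`).  If `a + k` is even, `y^(1+(a+k)/2) = √y^(2+a+k)`, so
`W k a √y^(a+k) ≤ C₁ y⁻¹ AA^(k+2) exp (-δ₀ (k+a)) ≤ C₂ exp (-δ₀ a)` (`AA x ≤ 1`); if `a + k` is odd `W k a = 0` (`W_odd`).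
(2) Monotonicity: let `g ≥ 1` (in the window, `δ < θ`), `z.1 + z.2 = m`, `k = z.1`, `a ≤ F`, `a + k` even.  If `z.2 = 0`: `muG {0} .. g = 0` (`tutG_zero`).  If `z.2 ≥ 1` and `k` even: `muG {m - k} (F - a) g ≤ muG {m + 2} (F - a) g` (`two`, `(k+2)/2` times; induction)
and `F - a = F - 2 (a/2)`.  If `k` is odd: `muG {m-k} (F-a) g ≤ muG {m-k+1} (F - a + 1) g` (`one`) `≤ muG {m+2} (F-a+1) g` (`two` `(k+1)/2` times), `F - a + 1 = F - 2 ((a-1)/2)`.
(3) `all_up h` with `ε₁`, `1 + ε₁ ≤ exp δ₀`: `muG {m+2} (F - 2v) g ≤ ((1+ε₁) y)^v muG {m+2} F g`; with `v = a/2` or `(a-1)/2`: `≤ exp (δ₀ a/2) √y^(a-1)` (as `√y ≤ 1`).  So each term is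
`W k a muG {m-k} (F-a) g ≤ C₂ exp (-δ₀ a) √y^(-k-a) exp (δ₀ a/2) √y^(a-1) muG {m+2} F g ≤ C₃ (√y)⁻¹^m exp (-δ₀ a/2) muG {m+2} F g`.
(4) Sum: over `a > D`: geometric series `∑_{a>D} exp (-δ₀ a/2) ≤ C₄ exp (-δ₀ D/2)` (for a finite sum: bound `exp (-δ₀ a/2)` and use `Summable`/`sum_geometric`), over `k ≤ m`: factor `m + 1 ≤ 2^(m+1)`.  Choose `C` large, `c = δ₀/2`.
The map `y ↦ y.1` is injective on the antidiagonal; e.g. `∑ y ∈ (antidiagonal F).filter (D < y.1), f y.1 ≤ ∑' a, f (D + 1 + a)` or reindex with `Finset.Nat.sum_antidiagonal_eq_sum_range_succ_mk`.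
-/

namespace SYS.Num

open Finset Real

variable {θ x : ℝ}

private theorem fw_s (x : ℝ) : 0 < √(yy x) ∧ √(yy x) ≤ 1 := by
  have hy := yy_pos x
  refine ⟨Real.sqrt_pos.2 hy, ?_⟩
  refine Real.sqrt_le_one.2 ?_
  have h1 := uu_pos x
  have h2 := uu_lt x
  rw [yy_eq]
  have h3 : uu x * (1 - uu x) ≤ 1 := by nlinarith
  have h4 : 0 ≤ uu x * (1 - uu x) := mul_nonneg h1.le (by linarith)
  nlinarith

/-- `W k a √y^(a+k) ≤ C exp (-δ a)`. -/
private theorem fw_W (hx : 0 < x) : ∃ C δ : ℝ, 0 < C ∧ 0 < δ ∧ ∀ k a : ℕ,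
    W k a * √(yy x) ^ (a + k) ≤ C * exp (-δ * a) := by
  obtain ⟨δ, hδ, hs⟩ := expm hx
  have hnn : ∀ t : ℕ × ℕ, 0 ≤ qq x t.1 t.2 * exp (δ * (t.1 + t.2)) := fun t =>
    mul_nonneg (qq_nonneg x _ _) (Real.exp_pos _).le
  obtain ⟨C₁, hC₁⟩ : ∃ C : ℝ, C = ∑' t : ℕ × ℕ, qq x t.1 t.2 * exp (δ * (t.1 + t.2)) := ⟨_, rfl⟩
  have hC₁0 : 0 ≤ C₁ := by
    rw [hC₁]
    exact tsum_nonneg hnn
  have hy := yy_pos x
  have hA : 0 < AA x := lt_trans (by norm_num) (AA_gt x)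
  refine ⟨(C₁ + 1) / yy x, δ, by positivity, hδ, ?_⟩
  intro k a
  by_cases hE : Even (a + k)
  · have h1 : qq x k a * exp (δ * (k + a)) ≤ C₁ := by
      rw [hC₁]
      exact hs.le_tsum (k, a) (fun t _ => hnn t)
    have hsq : √(yy x) ^ (a + k) = yy x ^ ((a + k) / 2) := by
      obtain ⟨j, hj⟩ := hE
      have h2 : (a + k) / 2 = j := by omega
      rw [h2, hj, ← two_mul, pow_mul, Real.sq_sqrt hy.le]
    have hAp : 0 < AA x ^ (k + 2) := pow_pos hA _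
    have hAp1 : AA x ^ (k + 2) ≤ 1 := pow_le_one₀ hA.le (AA_lt x).le
    have h3 : W k a * √(yy x) ^ (a + k) = qq x k a * AA x ^ (k + 2) / yy x := by
      rw [hsq]
      unfold qq
      rw [pow_add, pow_one]
      field_simp
    have h4 : qq x k a ≤ C₁ * exp (-(δ * (k + a))) := by
      have h5 : exp (δ * (k + a)) * exp (-(δ * (k + a))) = 1 := by
        rw [← Real.exp_add, add_neg_cancel, Real.exp_zero]
      calc qq x k a = (qq x k a * exp (δ * (k + a))) * exp (-(δ * (k + a))) := by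
            rw [mul_assoc, h5, mul_one]
        _ ≤ C₁ * exp (-(δ * (k + a))) := mul_le_mul_of_nonneg_right h1 (Real.exp_pos _).le
    have h6 : exp (-(δ * (k + a))) ≤ exp (-δ * a) := by
      rw [Real.exp_le_exp]
      have : 0 ≤ δ * (k : ℝ) := by positivity
      linarith
    have h7 : qq x k a * AA x ^ (k + 2) ≤ (C₁ + 1) * exp (-δ * a) := by
      calc qq x k a * AA x ^ (k + 2) ≤ qq x k a * 1 :=
            mul_le_mul_of_nonneg_left hAp1 (qq_nonneg x _ _)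
        _ = qq x k a := mul_one _
        _ ≤ C₁ * exp (-(δ * (k + a))) := h4
        _ ≤ C₁ * exp (-δ * a) := mul_le_mul_of_nonneg_left h6 hC₁0
        _ ≤ (C₁ + 1) * exp (-δ * a) :=
            mul_le_mul_of_nonneg_right (by linarith) (Real.exp_pos _).le
    rw [h3, div_mul_eq_mul_div]
    exact div_le_div_of_nonneg_right h7 hy.le
  · rw [W_odd hE, zero_mul]
    positivity

private theorem fw_two (b F g j : ℕ) : muG {b} F g ≤ muG {b + 2 * j} F g := by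
  induction j with
  | zero => exact le_rfl
  | succ j ih =>
    refine ih.trans ?_
    have h := two (b + 2 * j) 0 F g
    exact h

private theorem fw_zero (F g : ℕ) (hg : g ≠ 0) : muG {0} F g = 0 := by
  have h := tutG_zero 0 F g
  rw [if_neg (fun h => hg h.2.2)] at h
  exact h

/-- Monotonicity. -/
private theorem fw_mono {k b a f g : ℕ} (hb : 1 ≤ b) (he : Even (a + k)) :
    ∃ v : ℕ, 2 * v ≤ a ∧ a ≤ 2 * v + 1 ∧ muG {b} f g ≤ muG {k + b + 2} (a + f - 2 * v) g := by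
  rcases Nat.even_or_odd k with hk | hk
  · have ha : Even a := (Nat.even_add.1 he).2 hk
    obtain ⟨i, hi⟩ := ha
    obtain ⟨j, hj⟩ := hk
    refine ⟨i, by omega, by omega, ?_⟩
    have h1 : a + f - 2 * i = f := by omega
    have h2 : k + b + 2 = b + 2 * (j + 1) := by omega
    rw [h1, h2]
    exact fw_two b f g (j + 1)
  · have ha : Odd a := by
      rcases Nat.even_or_odd a with h | h
      · exact absurd ((Nat.even_add.1 he).1 h) (Nat.not_even_iff_odd.2 hk)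
      · exact h
    obtain ⟨i, hi⟩ := ha
    obtain ⟨j, hj⟩ := hk
    refine ⟨i, by omega, by omega, ?_⟩
    have h1 : a + f - 2 * i = f + 1 := by omega
    have h2 : k + b + 2 = b + 1 + 2 * (j + 1) := by omega
    rw [h1, h2]
    exact (one b hb 0 f g).trans (fw_two (b + 1) (f + 1) g (j + 1))

private theorem fw_geo {r : ℝ} (h0 : 0 ≤ r) (h1 : r < 1) (F D : ℕ) :
    ∑ y ∈ (antidiagonal F).filter (fun y => D < y.1), r ^ y.1 ≤ r ^ D * (1 - r)⁻¹ := by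
  have e1 : ∑ y ∈ (antidiagonal F).filter (fun y => D < y.1), r ^ y.1 =
      ∑ a ∈ ((antidiagonal F).filter (fun y => D < y.1)).image Prod.fst, r ^ a := by
    rw [Finset.sum_image]
    intro u hu w hw huw
    have hu1 := Finset.HasAntidiagonal.mem_antidiagonal.1 (Finset.mem_filter.1 hu).1
    have hw1 := Finset.HasAntidiagonal.mem_antidiagonal.1 (Finset.mem_filter.1 hw).1
    have h3 : u.1 = w.1 := huw
    have h4 : u.2 = w.2 := by omega
    exact Prod.ext h3 h4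
  have e2 : ((antidiagonal F).filter (fun y => D < y.1)).image Prod.fst ⊆
      (range (F + 1)).image (fun j => D + j) := by
    intro a ha
    obtain ⟨u, hu, rfl⟩ := Finset.mem_image.1 ha
    have hu1 := Finset.HasAntidiagonal.mem_antidiagonal.1 (Finset.mem_filter.1 hu).1
    have hu2 : D < u.1 := (Finset.mem_filter.1 hu).2
    refine Finset.mem_image.2 ⟨u.1 - D, Finset.mem_range.2 (by omega), ?_⟩
    show D + (u.1 - D) = u.1
    omega
  rw [e1]
  refine (Finset.sum_le_sum_of_subset_of_nonneg e2 fun a _ _ => pow_nonneg h0 a).trans ?_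
  rw [Finset.sum_image (fun u _ w _ huw => by
    have : D + u = D + w := huw
    omega)]
  have e3 : ∑ j ∈ range (F + 1), r ^ (D + j) = r ^ D * ∑ j ∈ range (F + 1), r ^ j := by
    rw [Finset.mul_sum]
    exact Finset.sum_congr rfl fun j _ => pow_add r D j
  rw [e3]
  refine mul_le_mul_of_nonneg_left ?_ (pow_nonneg h0 D)
  rw [← tsum_geometric_of_lt_one h0 h1]
  exact (summable_geometric_of_lt_one h0 h1).sum_le_tsum _ (fun j _ => pow_nonneg h0 j)

theorem farW (h : Par θ x) : ∃ (C c δ : ℝ) (M : ℕ), 0 < C ∧ 0 < c ∧ 0 < δ ∧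
    ∀ (m F g D : ℕ), Win θ δ M {m + 2} F g →
      ∑ z ∈ antidiagonal m, ∑ y ∈ (antidiagonal F).filter (fun y => D < y.1), W z.1 y.1 * muG {z.2} y.2 g ≤
        C ^ (m + 1) * exp (-c * D) * muG {m + 2} F g := by
  obtain ⟨hθ, hθ', hx, -⟩ := id h
  obtain ⟨C₂, δ₀, hC₂, hδ₀, HW⟩ := fw_W hx
  obtain ⟨hs0, hs1⟩ := fw_s x
  have hy := yy_pos x
  have hε : 0 < exp δ₀ - 1 := by
    have := Real.add_one_lt_exp hδ₀.ne'
    linarith
  obtain ⟨δ₁, M₁, hδ₁, HU⟩ := all_up h hε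
  have h1e : 1 + (exp δ₀ - 1) = exp δ₀ := by ring
  rw [h1e] at HU
  obtain ⟨s, hs⟩ : ∃ s : ℝ, s = √(yy x) := ⟨_, rfl⟩
  rw [← hs] at hs0 hs1 HW
  have hss : s ^ 2 = yy x := by
    rw [hs]
    exact Real.sq_sqrt hy.le
  have hi1 : 1 ≤ s⁻¹ := (one_le_inv₀ hs0).2 hs1
  have hi0 : 0 < s⁻¹ := by positivity
  obtain ⟨r, hr⟩ : ∃ r : ℝ, r = exp (-(δ₀ / 2)) := ⟨_, rfl⟩
  have hr0 : 0 < r := by
    rw [hr]
    exact Real.exp_pos _
  have hr1 : r < 1 := by
    rw [hr]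
    rw [← Real.exp_zero, Real.exp_lt_exp]
    linarith
  have hrr : 0 < 1 - r := by linarith
  obtain ⟨C₅, hC₅⟩ : ∃ C : ℝ, C = C₂ * (1 - r)⁻¹ := ⟨_, rfl⟩
  have hC₅0 : 0 < C₅ := by
    rw [hC₅]
    positivity
  refine ⟨2 * s⁻¹ * (C₅ + 1), δ₀ / 2, min δ₁ (θ / 2), max M₁ 1, by positivity, by positivity,
    lt_min hδ₁ (by positivity), ?_⟩
  intro m F g D hW
  have hF1 : 1 ≤ F := (le_max_right _ _).trans hW.1
  have hF0 : (0 : ℝ) < F := by exact_mod_cast hF1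
  have hg : g ≠ 0 := by
    rintro rfl
    have h2 := hW.2.1
    have h3 : min δ₁ (θ / 2) * F ≤ θ / 2 * F := mul_le_mul_of_nonneg_right (min_le_right _ _) hF0.le
    have h4 := (abs_le.1 h2).1
    have h5 : 0 < θ * F := by positivity
    rw [Nat.cast_zero, mul_zero] at h4
    linarith
  have hW1 : Win θ δ₁ M₁ {m + 2} F g := hW.mono (min_le_left _ _) (le_max_left _ _)
  obtain ⟨MU, hMU⟩ : ∃ u : ℝ, u = muG {m + 2} F g := ⟨_, rfl⟩
  have hMU0 : 0 ≤ MU := by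
    rw [hMU]
    exact muG_nonneg _ _ _
  have hrp : ∀ a : ℕ, exp (-δ₀ * a) * exp (δ₀ * a / 2) = r ^ a := by
    intro a
    rw [hr, ← Real.exp_nat_mul, ← Real.exp_add]
    congr 1
    ring
  -- the bound for each term
  have hterm : ∀ z ∈ antidiagonal m, ∀ y ∈ (antidiagonal F).filter (fun y => D < y.1),
      W z.1 y.1 * muG {z.2} y.2 g ≤ (C₂ * s⁻¹ ^ (m + 1) * MU) * r ^ y.1 := by
    intro z hz y hy'
    have hz1 : z.1 + z.2 = m := Finset.HasAntidiagonal.mem_antidiagonal.1 hz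
    have hy1 : y.1 + y.2 = F := Finset.HasAntidiagonal.mem_antidiagonal.1 (Finset.mem_filter.1 hy').1
    have hR0 : 0 ≤ (C₂ * s⁻¹ ^ (m + 1) * MU) * r ^ y.1 := by positivity
    by_cases hb : z.2 = 0
    · rw [hb, fw_zero _ _ hg, mul_zero]
      exact hR0
    by_cases he : Even (y.1 + z.1)
    · obtain ⟨v, hv1, hv2, hv3⟩ := fw_mono (k := z.1) (b := z.2) (a := y.1) (f := y.2) (g := g)
        (by omega) he
      rw [hz1, hy1] at hv3
      have hu := HU {m + 2} F g v hW1 (by omega)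
      rw [← hMU, mul_pow] at hu
      have hv4 : muG {z.2} y.2 g ≤ (exp (δ₀ * y.1 / 2) * (s ^ y.1 * s⁻¹)) * MU := by
        refine hv3.trans (hu.trans (mul_le_mul_of_nonneg_right ?_ hMU0))
        refine mul_le_mul ?_ ?_ (pow_nonneg hy.le v) (Real.exp_pos _).le
        · rw [← Real.exp_nat_mul, Real.exp_le_exp]
          have h2 : 2 * (v : ℝ) ≤ y.1 := by exact_mod_cast hv1
          nlinarith
        · rw [← hss, ← pow_mul]
          have h3 : s ^ (2 * v) = s ^ (2 * v + 1) * s⁻¹ := by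
            rw [pow_succ, mul_assoc, mul_inv_cancel₀ hs0.ne', mul_one]
          rw [h3]
          exact mul_le_mul_of_nonneg_right (pow_le_pow_of_le_one hs0.le hs1 hv2) hi0.le
      have hw := HW z.1 y.1
      have hw2 : W z.1 y.1 ≤ C₂ * exp (-δ₀ * y.1) * (s⁻¹ ^ y.1 * s⁻¹ ^ z.1) := by
        have h4 : s ^ (y.1 + z.1) * (s⁻¹ ^ y.1 * s⁻¹ ^ z.1) = 1 := by
          rw [← pow_add, ← mul_pow, mul_inv_cancel₀ hs0.ne', one_pow]
        calc W z.1 y.1 = (W z.1 y.1 * s ^ (y.1 + z.1)) * (s⁻¹ ^ y.1 * s⁻¹ ^ z.1) := by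
              rw [mul_assoc, h4, mul_one]
          _ ≤ _ := mul_le_mul_of_nonneg_right hw (by positivity)
      have h5 : s⁻¹ ^ y.1 * s ^ y.1 = 1 := by
        rw [← mul_pow, inv_mul_cancel₀ hs0.ne', one_pow]
      have h6 : s⁻¹ ^ z.1 ≤ s⁻¹ ^ m := pow_le_pow_right₀ hi1 (by omega)
      calc W z.1 y.1 * muG {z.2} y.2 g
          ≤ (C₂ * exp (-δ₀ * y.1) * (s⁻¹ ^ y.1 * s⁻¹ ^ z.1)) *
            ((exp (δ₀ * y.1 / 2) * (s ^ y.1 * s⁻¹)) * MU) :=
            mul_le_mul hw2 hv4 (muG_nonneg _ _ _) (by positivity)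
        _ = C₂ * (exp (-δ₀ * y.1) * exp (δ₀ * y.1 / 2)) * (s⁻¹ ^ y.1 * s ^ y.1) *
            (s⁻¹ ^ z.1 * s⁻¹) * MU := by ring
        _ = C₂ * r ^ y.1 * (s⁻¹ ^ z.1 * s⁻¹) * MU := by rw [hrp, h5, mul_one]
        _ ≤ C₂ * r ^ y.1 * (s⁻¹ ^ m * s⁻¹) * MU := by
            refine mul_le_mul_of_nonneg_right ?_ hMU0
            refine mul_le_mul_of_nonneg_left ?_ (by positivity)
            exact mul_le_mul_of_nonneg_right h6 hi0.le
        _ = (C₂ * s⁻¹ ^ (m + 1) * MU) * r ^ y.1 := by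
            rw [pow_succ]
            ring
    · rw [W_odd he, zero_mul]
      exact hR0
  have hrD : r ^ D = exp (-(δ₀ / 2) * D) := by
    rw [hr, ← Real.exp_nat_mul]
    congr 1
    ring
  have hin : ∀ z ∈ antidiagonal m,
      ∑ y ∈ (antidiagonal F).filter (fun y => D < y.1), W z.1 y.1 * muG {z.2} y.2 g ≤
        C₅ * s⁻¹ ^ (m + 1) * r ^ D * MU := by
    intro z hz
    refine (Finset.sum_le_sum fun y hy' => hterm z hz y hy').trans ?_
    rw [← Finset.mul_sum]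
    refine (mul_le_mul_of_nonneg_left (fw_geo hr0.le hr1 F D) (by positivity)).trans (le_of_eq ?_)
    rw [hC₅]
    ring
  have hcard : ((m : ℝ) + 1) ≤ 2 ^ (m + 1) := by
    have h2 : m + 1 < 2 ^ (m + 1) := Nat.lt_two_pow_self
    have h3 : ((m + 1 : ℕ) : ℝ) ≤ ((2 ^ (m + 1) : ℕ) : ℝ) := by exact_mod_cast h2.le
    push_cast at h3
    exact h3
  have hC5 : C₅ ≤ (C₅ + 1) ^ (m + 1) := by
    calc C₅ ≤ C₅ + 1 := by linarith
      _ = (C₅ + 1) ^ 1 := (pow_one _).symm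
      _ ≤ (C₅ + 1) ^ (m + 1) := pow_le_pow_right₀ (by linarith) (by omega)
  have hsum := Finset.sum_le_card_nsmul _ _ _ hin
  rw [Finset.Nat.card_antidiagonal, nsmul_eq_mul] at hsum
  refine hsum.trans ?_
  rw [← hMU, ← hrD]
  have hcc : ((m + 1 : ℕ) : ℝ) ≤ 2 ^ (m + 1) := by
    push_cast
    exact hcard
  calc ((m + 1 : ℕ) : ℝ) * (C₅ * s⁻¹ ^ (m + 1) * r ^ D * MU)
      ≤ 2 ^ (m + 1) * ((C₅ + 1) ^ (m + 1) * s⁻¹ ^ (m + 1) * r ^ D * MU) := by
        refine mul_le_mul hcc ?_ (by positivity) (by positivity)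
        refine mul_le_mul_of_nonneg_right ?_ hMU0
        refine mul_le_mul_of_nonneg_right ?_ (by positivity)
        exact mul_le_mul_of_nonneg_right hC5 (by positivity)
    _ = (2 * s⁻¹ * (C₅ + 1)) ^ (m + 1) * r ^ D * MU := by
        rw [mul_pow, mul_pow]
        ring

end SYS.Num
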