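import Mathlib

/-!
# SYS-SL-Ind: the abstract induction over the perimeter

PROOF.  Strong induction on `p`: `ih : ∀ q < p, ∀ F, 1 ≤ q → q ≤ P → lo + q * D' ≤ F → F + q ≤ hi → a₀ * Φ q F ≤ Φ (q+1) (F-1)` with `D' = D + P + 2`.
`p = 1`: `h1`.  Let `p = m + 2`, `lo + (m+2) D' ≤ F`, `F + m + 2 ≤ hi`; in particular `lo ≤ F ≤ hi`, `D' ≤ F`, `F ≠ 0`.
(a) CHAIN: for `q, j, G` with `1 ≤ q`, `q + j ≤ m + 2`, `lo + (m+1) D' + j ≤ G`, `G + q ≤ hi`: `a₀^j * Φ q G ≤ Φ (q + j) (G - j)` (induction on `j` with `ih`; at the last step `ih` is used at `q + j - 1 ≤ m + 1` and `G - (j-1)`).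
(b) LOWER BOUND: (a) with `q = 1`, `j = m + 1`, `G = F + m + 1`: `a₀^(m+1) * Φ 1 (F+m+1) ≤ Φ (m+2) F`, so `other` gives `oth m F ≤ η Φ (m+2) F`.
(c) NEAR TERMS: `z ∈ antidiagonal m`, `y ∈ antidiagonal F`, `k = z.1`, `a = y.1 ≤ D`, `w k a ≠ 0`, `z.2 = m - k ≥ 1` (else `Φ 0 _ = 0`): `k + a` is even (`par`), `2 v = k + 2 + a ≤ F`; (a) with `q = m - k`, `j = k + 2`, `G = F - a`
(`F - a ≥ lo + (m+2) D' - D ≥ lo + (m+1) D' + P + 2`): `a₀^(k+2) * Φ (m-k) (F-a) ≤ Φ (m+2) (F - a - (k+2)) = Φ (m+2) (F - 2 v) ≤ (b^2)^v Φ (m+2) F = b^(k+2+a) Φ (m+2) F` (`up`).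
So `w k a * Φ z.2 y.2 ≤ w k a * (b^(k+2+a) * a₀⁻¹^(k+2)) * Φ (m+2) F`.  Sum over the near pairs: the map `(z, y) ↦ (z.1, y.1)` is injective on `antidiagonal m ×ˢ antidiagonal F` (`Finset.sum_product'`, `Finset.sum_image`), so with `sum`:
`2 * ∑_near ≤ s * Φ (m+2) F`.
(d) `far`: `2 * ∑_far ≤ η Φ (m+2) F` (`Finset.sum_filter_add_sum_filter_not` splits the inner sum).  `tut`: `Φ (m+2) F ≤ Φ (m+3) (F-1) + (2 η + s) Φ (m+2) F`, and `a₀ ≤ 1 - s - 2 η`.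
-/

namespace SYS.Num

open Finset

theorem ind (Φ : ℕ → ℕ → ℝ) (oth w : ℕ → ℕ → ℝ) (a₀ b s η : ℝ) (lo hi P D : ℕ)
    (hΦ : ∀ p F, 0 ≤ Φ p F) (hw : ∀ k a, 0 ≤ w k a) (ha : 0 < a₀) (hb : 0 ≤ b)
    (par : ∀ k a, w k a ≠ 0 → Even (k + a)) (h0 : ∀ F, Φ 0 F = 0)
    (h1 : ∀ F, lo ≤ F → F ≤ hi → a₀ * Φ 1 F ≤ Φ 2 (F - 1))
    (tut : ∀ m F, m + 2 ≤ P → lo ≤ F → F ≤ hi → F ≠ 0 → Φ (m + 2) F ≤ Φ (m + 3) (F - 1) + oth m F +
      2 * ∑ z ∈ antidiagonal m, ∑ y ∈ antidiagonal F, w z.1 y.1 * Φ z.2 y.2)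
    (far : ∀ m F, m + 2 ≤ P → lo ≤ F → F ≤ hi →
      2 * ∑ z ∈ antidiagonal m, ∑ y ∈ (antidiagonal F).filter (fun y => D < y.1),
        w z.1 y.1 * Φ z.2 y.2 ≤ η * Φ (m + 2) F)
    (up : ∀ m F v, m + 2 ≤ P → lo ≤ F → F ≤ hi → 2 * v ≤ F → Φ (m + 2) (F - 2 * v) ≤ (b ^ 2) ^ v * Φ (m + 2) F)
    (sum : ∀ S : Finset (ℕ × ℕ), 2 * ∑ z ∈ S, w z.1 z.2 * (b ^ (z.1 + 2 + z.2) * a₀⁻¹ ^ (z.1 + 2)) ≤ s)
    (other : ∀ m F, m + 2 ≤ P → lo ≤ F → F ≤ hi → a₀ ^ (m + 1) * Φ 1 (F + m + 1) ≤ Φ (m + 2) F →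
      oth m F ≤ η * Φ (m + 2) F)
    (hs : s + 2 * η + a₀ ≤ 1) :
    ∀ p F, 1 ≤ p → p ≤ P → lo + p * (D + P + 2) ≤ F → F + p ≤ hi → a₀ * Φ p F ≤ Φ (p + 1) (F - 1) := by
  intro p
  induction p using Nat.strong_induction_on with
  | _ p ih =>
  intro F hp1 hpP hF1 hF2
  rcases Nat.lt_or_ge 1 p with hp | hp
  swap
  · have hp' : p = 1 := le_antisymm hp hp1
    subst hp'
    exact h1 F (by omega) (by omega)
  obtain ⟨m, rfl⟩ : ∃ m, p = m + 2 := ⟨p - 2, by omega⟩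
  have hexp : (m + 2) * (D + P + 2) = (m + 1) * (D + P + 2) + (D + P + 2) := by ring
  have hlo : lo ≤ F := by omega
  have hhi : F ≤ hi := by omega
  have hFne : F ≠ 0 := by omega
  have chain : ∀ j q G, 1 ≤ q → q + j ≤ m + 2 → lo + (m + 1) * (D + P + 2) + j ≤ G → G + q ≤ hi →
      a₀ ^ j * Φ q G ≤ Φ (q + j) (G - j) := by
    intro j
    induction j with
    | zero =>
      intro q G _ _ _ _
      simp
    | succ j ihj =>
      intro q G hq1 hq2 hG1 hG2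
      have h2 := ihj q G hq1 (by omega) (by omega) hG2
      have hmul : (q + j) * (D + P + 2) ≤ (m + 1) * (D + P + 2) := Nat.mul_le_mul_right _ (by omega)
      have h3 := ih (q + j) (by omega) (G - j) (by omega) (by omega) (by omega) (by omega)
      have h4 : G - j - 1 = G - (j + 1) := by omega
      rw [h4] at h3
      calc a₀ ^ (j + 1) * Φ q G = a₀ * (a₀ ^ j * Φ q G) := by ring
        _ ≤ a₀ * Φ (q + j) (G - j) := mul_le_mul_of_nonneg_left h2 ha.le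
        _ ≤ Φ (q + j + 1) (G - (j + 1)) := h3
  have hb1 : a₀ ^ (m + 1) * Φ 1 (F + m + 1) ≤ Φ (m + 2) F := by
    have h2 := chain (m + 1) 1 (F + m + 1) le_rfl (by omega) (by omega) (by omega)
    have h3 : 1 + (m + 1) = m + 2 := by ring
    have h4 : F + m + 1 - (m + 1) = F := by omega
    rw [h3, h4] at h2
    exact h2
  have hoth := other m F hpP hlo hhi hb1
  have hΦ0 := hΦ (m + 2) F
  have near1 : ∀ z ∈ antidiagonal m, ∀ y ∈ (antidiagonal F).filter (fun y => ¬ D < y.1),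
      w z.1 y.1 * Φ z.2 y.2 ≤
        w z.1 y.1 * (b ^ (z.1 + 2 + y.1) * a₀⁻¹ ^ (z.1 + 2)) * Φ (m + 2) F := by
    intro z hz y hy
    rw [HasAntidiagonal.mem_antidiagonal] at hz
    rw [mem_filter, HasAntidiagonal.mem_antidiagonal] at hy
    obtain ⟨hy1, hy2⟩ := hy
    have hnn : 0 ≤ w z.1 y.1 * (b ^ (z.1 + 2 + y.1) * a₀⁻¹ ^ (z.1 + 2)) * Φ (m + 2) F := by
      have := hw z.1 y.1
      positivity
    by_cases hw0 : w z.1 y.1 = 0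
    · rw [hw0, zero_mul, zero_mul, zero_mul]
    by_cases hz0 : z.2 = 0
    · rw [hz0, h0, mul_zero]
      exact hnn
    have hev := par _ _ hw0
    obtain ⟨v, hv⟩ : ∃ v, z.1 + 2 + y.1 = 2 * v := by
      obtain ⟨r, hr⟩ := hev
      exact ⟨r + 1, by omega⟩
    have h2 := chain (z.1 + 2) z.2 y.2 (by omega) (by omega) (by omega) (by omega)
    have h3 : z.2 + (z.1 + 2) = m + 2 := by omega
    have h4 : y.2 - (z.1 + 2) = F - (z.1 + 2 + y.1) := by omega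
    rw [h3, h4] at h2
    have h5 := up m F v hpP hlo hhi (by omega)
    rw [← pow_mul, ← hv] at h5
    have h6 := h2.trans h5
    have h7 : Φ z.2 y.2 ≤ b ^ (z.1 + 2 + y.1) * a₀⁻¹ ^ (z.1 + 2) * Φ (m + 2) F := by
      have h8 : Φ z.2 y.2 = a₀⁻¹ ^ (z.1 + 2) * (a₀ ^ (z.1 + 2) * Φ z.2 y.2) := by
        rw [← mul_assoc, ← mul_pow, inv_mul_cancel₀ ha.ne', one_pow, one_mul]
      rw [h8]
      calc a₀⁻¹ ^ (z.1 + 2) * (a₀ ^ (z.1 + 2) * Φ z.2 y.2)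
          ≤ a₀⁻¹ ^ (z.1 + 2) * (b ^ (z.1 + 2 + y.1) * Φ (m + 2) F) :=
            mul_le_mul_of_nonneg_left h6 (by positivity)
        _ = b ^ (z.1 + 2 + y.1) * a₀⁻¹ ^ (z.1 + 2) * Φ (m + 2) F := by ring
    calc w z.1 y.1 * Φ z.2 y.2
        ≤ w z.1 y.1 * (b ^ (z.1 + 2 + y.1) * a₀⁻¹ ^ (z.1 + 2) * Φ (m + 2) F) :=
          mul_le_mul_of_nonneg_left h7 (hw _ _)
      _ = w z.1 y.1 * (b ^ (z.1 + 2 + y.1) * a₀⁻¹ ^ (z.1 + 2)) * Φ (m + 2) F := by ring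
  have near2 : 2 * ∑ z ∈ antidiagonal m, ∑ y ∈ (antidiagonal F).filter (fun y => ¬ D < y.1),
      w z.1 y.1 * Φ z.2 y.2 ≤ s * Φ (m + 2) F := by
    have hinj : Set.InjOn (fun x : (ℕ × ℕ) × (ℕ × ℕ) => (x.1.1, x.2.1))
        ((antidiagonal m ×ˢ (antidiagonal F).filter (fun y => ¬ D < y.1) : Finset _) : Set _) := by
      rintro ⟨⟨z1, z2⟩, ⟨y1, y2⟩⟩ hx ⟨⟨z1', z2'⟩, ⟨y1', y2'⟩⟩ hx' he
      rw [mem_coe, mem_product, mem_filter, HasAntidiagonal.mem_antidiagonal, HasAntidiagonal.mem_antidiagonal] at hx hx'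
      simp only [Prod.mk.injEq] at he hx hx' ⊢
      omega
    have h2 := sum ((antidiagonal m ×ˢ (antidiagonal F).filter (fun y => ¬ D < y.1)).image
      (fun x => (x.1.1, x.2.1)))
    rw [sum_image hinj, sum_product] at h2
    calc 2 * ∑ z ∈ antidiagonal m, ∑ y ∈ (antidiagonal F).filter (fun y => ¬ D < y.1),
          w z.1 y.1 * Φ z.2 y.2
        ≤ 2 * ∑ z ∈ antidiagonal m, ∑ y ∈ (antidiagonal F).filter (fun y => ¬ D < y.1),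
          w z.1 y.1 * (b ^ (z.1 + 2 + y.1) * a₀⁻¹ ^ (z.1 + 2)) * Φ (m + 2) F :=
          mul_le_mul_of_nonneg_left (sum_le_sum fun z hz => sum_le_sum fun y hy => near1 z hz y hy)
            (by norm_num)
      _ = (2 * ∑ z ∈ antidiagonal m, ∑ y ∈ (antidiagonal F).filter (fun y => ¬ D < y.1),
          w z.1 y.1 * (b ^ (z.1 + 2 + y.1) * a₀⁻¹ ^ (z.1 + 2))) * Φ (m + 2) F := by
          rw [mul_assoc, sum_mul]
          congr 1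
          exact sum_congr rfl fun z _ => (sum_mul _ _ _).symm
      _ ≤ s * Φ (m + 2) F := mul_le_mul_of_nonneg_right h2 hΦ0
  have hfar := far m F hpP hlo hhi
  have hsplit : ∑ z ∈ antidiagonal m, ∑ y ∈ antidiagonal F, w z.1 y.1 * Φ z.2 y.2 =
      ∑ z ∈ antidiagonal m, ∑ y ∈ (antidiagonal F).filter (fun y => D < y.1), w z.1 y.1 * Φ z.2 y.2 +
      ∑ z ∈ antidiagonal m, ∑ y ∈ (antidiagonal F).filter (fun y => ¬ D < y.1),
        w z.1 y.1 * Φ z.2 y.2 := by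
    rw [← sum_add_distrib]
    exact sum_congr rfl fun z _ => (sum_filter_add_sum_filter_not _ _ _).symm
  have htut := tut m F hpP hlo hhi hFne
  rw [hsplit, mul_add] at htut
  have h9 : Φ (m + 2) F ≤ Φ (m + 3) (F - 1) + (2 * η + s) * Φ (m + 2) F := by linarith
  have h10 : a₀ * Φ (m + 2) F ≤ (1 - s - 2 * η) * Φ (m + 2) F :=
    mul_le_mul_of_nonneg_right (by linarith) hΦ0
  have h11 : m + 2 + 1 = m + 3 := by ring
  rw [h11]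
  linarith

end SYS.Num
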