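import Pool.Agent.SYS.SL.LowM

/-!
# SYS-SL-Low: LOWER NORMAL FORM for one hole

PROOF.  We may assume `ε ≤ ε'` small: it is enough to treat `ε₀ := min ε (1 / (16 (|A₀| + 1)))` (the right side is increasing in `ε`).  Write `e = ε₀/4`.
`tilt hx`: `t₀`; `t₁ := min t₀ (min e 1)`; it gives `e₀ > 0`, `ρ < 1`; `e₁ := min e₀ (t₁/2)`, `t := t₁ - e₁ > 0`, `a₀ := AA x * exp (-t)` (`0 < a₀ ≤ 1`), `b := √y * exp e₁`, `η := (1-ρ)/2`, `s := ρ - a₀`.  `sum` of `ind` for `w = W`: for `k + a` even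
`W k a b^(k+2+a) a₀⁻¹^(k+2) = qq x k a exp (t₁ (k+2) + e₁ a)` (`y^(1+(a+k)/2) = √y^(a+k+2)`), odd: `0`; a finite sum is `≤ tsum`, and `AA exp (-t₁+e₁) = a₀`.
Fix `p F g` in the window, `p ≤ A₀ log F`, `F + p` even; `Φ q G := muG {q} G g`, `oth m G := ∑ muG {z.1,z.2} G (g-1) + ∑ LL 1 {z.1} {z.2} G g`, `P := p`.
`farW`: `C c`; `D` := a natural number with `2 C^(m+1) exp (-c D) ≤ η` for all `m ≤ p`, `D ≤ C₁ (p+1)`.  `lo := F - p * (D+P+2)`, `hi := F + 2 p + 1`.  As `p ≤ A₀ log F` and `F ≥ M`, `p * (D+P+2) ≤ C₂ (log F + 1)^2 ≤ δ F/8`, so all `G ∈ [lo, hi]` and all `q ≤ p + 2` are in the windows of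
`tut_le` (`g ≥ 1`), `farW`, `oth_le`, `all_up` (with `1 + ε₁ ≤ exp (2 e₁)`, `b^2 = y exp (2 e₁)`), `nu_up` (`Win.shift`).  `h1`: `tutG_one` (`Q = 0`, `G ≥ 1`): equality `muG {1} G = muG {2} (G-1)`.  `h0`: `tutG_zero`, `g ≥ 1`.
`other`: if `G + m` is odd, `oth_odd`.  If even: `oth_le` with `e`: `oth ≤ K exp (e m) gam^m nu((G+1)/2) g`; `hole_ge 1`: `3 (G + m) nu ((G+m)/2) g ≤ Φ 1 (G+m+1)` (`muG_nu`); `nu_up` with `l = (G+m)/2 - (G+1)/2` (`m ≥ 1`; for `m = 0` it is `0`):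
`nu((G+1)/2) ≤ ((exp (2e)) y)^l nu((G+m)/2)` and `2 l ≥ m - 1`, so `gam^m nu((G+1)/2) ≤ AA^m √y⁻¹ exp (e m) nu((G+m)/2)` and `oth ≤ K' exp ((2e + t) m)/G * Φ (m+2) G`, `exp ((2 e + t) m) ≤ exp (3 e p) ≤ F^(1/2)` because `3 e A₀ ≤ 1/4`; so it is `≤ η Φ` for `F ≥ M`.
`ind` gives `a₀ Φ q G ≤ Φ (q+1) (G-1)` for `q ≤ p` at `G = F + p - q` (check `lo + q (D+P+2) ≤ G`, `G + q ≤ hi`), so `a₀^(p-1) Φ 1 (F+p-1) ≤ Φ p F`, and `hole_ge 1`: `3 (F+p-2) nu((F+p-2)/2) g ≤ Φ 1 (F+p-1)`.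
Finally `gam^p F nu((F+1)/2) ≤ K'' exp (ε₀/2 p) a₀^(p-1) (F+p-2) nu((F+p-2)/2)`: `p ≥ 2`: `nu_up` with `l = (F+p-2)/2 - (F+1)/2` (`F + p` even, `2 l ≥ p - 3`); `p = 1`: `nu_low` with `l = 1`.
-/

namespace SYS.Num

open Finset Real

variable {θ x : ℝ}

private theorem low_ev (a b c e K : ℝ) (he : 0 < e) : ∀ᶠ F : ℕ in Filter.atTop,
    a * (b * log F + c) ^ 2 ≤ e * F ∧ K * √F ≤ F ∧ 3 ≤ F := by
  have h1 : Filter.Tendsto (fun F : ℕ => (F : ℝ)) Filter.atTop Filter.atTop := tendsto_natCast_atTop_atTop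
  have h2 : (fun y : ℝ => a * (b * log y + c) ^ 2) =o[Filter.atTop] fun y : ℝ => y := by
    have l1 : (fun y : ℝ => log y) =o[Filter.atTop] fun y : ℝ => y ^ (1 / 2 : ℝ) :=
      isLittleO_log_rpow_atTop (by norm_num)
    have l2 : (fun _ : ℝ => c) =o[Filter.atTop] fun y : ℝ => y ^ (1 / 2 : ℝ) := by
      refine Asymptotics.isLittleO_const_left.2 (Or.inr ?_)
      exact tendsto_norm_atTop_atTop.comp (tendsto_rpow_atTop (by norm_num))
    have l3 := ((l1.const_mul_left b).add l2)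
    have l4 := (l3.pow (n := 2) (by norm_num)).const_mul_left a
    refine l4.trans_eventuallyEq ?_
    filter_upwards [Filter.eventually_ge_atTop (0 : ℝ)] with y hy
    rw [← Real.rpow_natCast, ← Real.rpow_mul hy]
    norm_num
  have h3 := (h2.comp_tendsto h1).bound he
  have h4 : ∀ᶠ F : ℕ in Filter.atTop, K ^ 2 ≤ F := h1.eventually (Filter.eventually_ge_atTop _)
  filter_upwards [h3, h4, Filter.eventually_ge_atTop 3] with F f1 f2 f3
  refine ⟨?_, ?_, f3⟩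
  · simp only [Function.comp_apply, Real.norm_eq_abs] at f1
    have : |(F : ℝ)| = F := abs_of_nonneg (Nat.cast_nonneg _)
    rw [this] at f1
    exact (le_abs_self _).trans f1
  · have hF : (0 : ℝ) ≤ F := Nat.cast_nonneg _
    have f4 : K ≤ √F := Real.le_sqrt_of_sq_le f2
    calc K * √F ≤ √F * √F := mul_le_mul_of_nonneg_right f4 (Real.sqrt_nonneg _)
      _ = F := Real.mul_self_sqrt hF

private theorem lw_a {δ θ g k F : ℝ} (hk : 2 * k = F + 1) (w2 : -(δ / 2 * F) ≤ 2 * g - θ * F) (w3 : 1 ≤ δ / 2 * F)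
    (hθ : θ < 1 / 2) (hδ : 0 < δ) : -(δ * k) ≤ g - θ * k := by
  have h1 : δ * (2 * k) = δ * F + δ := by rw [hk]; ring
  have h2 : θ * (2 * k) = θ * F + θ := by rw [hk]; ring
  linarith

private theorem lw_b {δ θ g k F : ℝ} (hk : 2 * k = F + 1) (w2 : 2 * g - θ * F ≤ δ / 2 * F) (hθ : 0 < θ) (hδ : 0 < δ)
    (hF : 4 ≤ F) : g - θ * k ≤ δ * k := by
  have h1 : δ * (2 * k) = δ * F + δ := by rw [hk]; ring
  have h2 : θ * (2 * k) = θ * F + θ := by rw [hk]; ring
  have h3 : 0 ≤ δ * F := mul_nonneg hδ.le (by linarith)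
  linarith

private theorem lw_c {δ k F : ℝ} (hk : 2 * k = F + 1) (w3 : 1 ≤ δ / 2 * F) (hδ : 0 < δ) : 1 ≤ δ * k := by
  have h1 : δ * (2 * k) = δ * F + δ := by rw [hk]; ring
  linarith

private theorem lw_d {X A Y : ℝ} (h6 : X * (2 * A) ≤ Y) (hA : 1 / 2 < A) (h0 : 0 ≤ X) : X ≤ Y := by
  have h1 : X * (1 / 2) ≤ X * A := mul_le_mul_of_nonneg_left hA.le h0
  linarith

private theorem lw_e {e m t ε : ℝ} (he : 0 < e) (hte : t ≤ e) (heε : 4 * e ≤ ε) (hm : 0 ≤ m) :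
    e * m + t * (m + 1) ≤ ε * (m + 2) := by
  have h1 : t * (m + 1) ≤ e * (m + 1) := mul_le_mul_of_nonneg_right hte (by linarith)
  have h2 : 4 * e * (m + 2) ≤ ε * (m + 2) := mul_le_mul_of_nonneg_right heε (by linarith)
  have h3 : 0 ≤ e * m := mul_nonneg he.le hm
  linarith

theorem low (h : Par θ x) {ε : ℝ} (hε : 0 < ε) (A₀ : ℝ) : ∃ (K δ : ℝ) (M : ℕ), 0 < K ∧ 0 < δ ∧
    ∀ (p F g : ℕ), Win θ δ M {p} F g → (p : ℝ) ≤ A₀ * log F → Even (F + p) →
      gam x ^ p * F * SST.nu ((F + 1) / 2) g ≤ K * exp (ε * p) * muG {p} F g := by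
  have hθ := h.1
  have hθ1 := h.2.1
  obtain ⟨B, hB⟩ : ∃ B, B = |A₀| + 1 := ⟨_, rfl⟩
  have hB1 : 1 ≤ B := by rw [hB]; have := abs_nonneg A₀; linarith
  obtain ⟨e, he⟩ : ∃ e, e = min (ε / 4) (1 / (16 * B)) := ⟨_, rfl⟩
  have he0 : 0 < e := by rw [he]; exact lt_min (by linarith) (by positivity)
  have heε : 4 * e ≤ ε := by
    have : e ≤ ε / 4 := by rw [he]; exact min_le_left _ _
    linarith
  have heB : 3 * e * B ≤ 1 / 2 := by
    have h1 : e ≤ 1 / (16 * B) := by rw [he]; exact min_le_right _ _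
    have h2 : e * B ≤ 1 / (16 * B) * B := mul_le_mul_of_nonneg_right h1 (by linarith)
    have h3 : 1 / (16 * B) * B = 1 / 16 := by field_simp
    linarith
  obtain ⟨t, C₁, K', δ, M, ht0, hte, hδ, hδ1, hmain⟩ := low_main h he0
  obtain ⟨δn, Mn, hδn, hnuc⟩ := low_nuc h he0
  have hy := yy_pos x
  have hy1 := low_yy1 x
  have hs : 0 < √(yy x) := Real.sqrt_pos.2 hy
  obtain ⟨hA, hA2, hA3⟩ := low_AA x
  have hgam := low_gam x
  obtain ⟨δl, Ml, hδl, hlow⟩ := nu_low h (ε := yy x / 2) (by linarith) (by linarith)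
  obtain ⟨M₀, hM₀⟩ := (low_ev C₁ B 1 (δ / 4) K' (by positivity)).exists_forall_of_atTop
  refine ⟨gam x ^ 2 * (√(yy x))⁻¹ + gam x * (2 / yy x), min (min (δ / 4) (δn / 2)) (min (δl / 2) 1),
    max (max (2 * M) Mn) (max (2 * Ml + 2) (max M₀ 4)), by positivity, by positivity, ?_⟩
  intro p F g hW hp hev
  have hp1 : 1 ≤ p := hW.2.2.2 p (Multiset.mem_singleton_self p)
  have hFM : M₀ ≤ F := ((le_max_left _ _).trans ((le_max_right _ _).trans (le_max_right _ _))).trans hW.1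
  have hF4 : 4 ≤ F := ((le_max_right _ _).trans ((le_max_right _ _).trans (le_max_right _ _))).trans hW.1
  have hFl : 2 * Ml + 2 ≤ F := ((le_max_left _ _).trans (le_max_right _ _)).trans hW.1
  obtain ⟨f1, f2, f3⟩ := hM₀ F hFM
  have hFr : (4 : ℝ) ≤ F := by exact_mod_cast hF4
  have hlog : 0 ≤ log (F : ℝ) := Real.log_nonneg (by linarith)
  have hpB : (p : ℝ) ≤ B * log F := by
    refine hp.trans (mul_le_mul_of_nonneg_right ?_ hlog)
    rw [hB]
    have := le_abs_self A₀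
    linarith
  have hp0 : (1 : ℝ) ≤ p := by exact_mod_cast hp1
  have hc2 : (C₁ * (p + 1) ^ 2 : ℝ) ≤ δ / 4 * F := by
    refine le_trans ?_ f1
    refine mul_le_mul_of_nonneg_left ?_ (Nat.cast_nonneg _)
    exact pow_le_pow_left₀ (by linarith) (by linarith) 2
  have hc1 : C₁ * (p + 1) ^ 2 ≤ F := by
    have h1 : (C₁ * (p + 1) ^ 2 : ℝ) ≤ F := by
      exact hc2.trans (mul_le_of_le_one_left (by linarith) (by linarith))
    exact_mod_cast h1
  have hexp : exp (3 * e * p) ≤ √F := by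
    have h1 : √(F : ℝ) = exp (1 / 2 * log F) := by
      rw [Real.sqrt_eq_rpow, Real.rpow_def_of_pos (by linarith)]
      congr 1
      ring
    rw [h1]
    apply Real.exp_le_exp.2
    calc 3 * e * p ≤ 3 * e * (B * log F) := mul_le_mul_of_nonneg_left hpB (by positivity)
      _ = 3 * e * B * log F := by ring
      _ ≤ 1 / 2 * log F := mul_le_mul_of_nonneg_right heB hlog
  have hc3 : K' * exp (3 * e * p) ≤ F := by
    rcases le_or_gt 0 K' with hK | hK
    · exact (mul_le_mul_of_nonneg_left hexp hK).trans f2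
    · have : K' * exp (3 * e * p) ≤ 0 := mul_nonpos_of_nonpos_of_nonneg hK.le (exp_pos _).le
      linarith
  have hm := hmain p F g hp1 (hW.mono ((min_le_left _ _).trans (min_le_left _ _))
    ((le_max_left _ _).trans (le_max_left _ _))) hc1 hc2 hc3
  obtain ⟨Φ, hΦ⟩ : ∃ Φ, Φ = muG {p} F g := ⟨_, rfl⟩
  have hΦ0 : 0 ≤ Φ := by rw [hΦ]; exact muG_nonneg _ _ _
  rw [← hΦ] at hm ⊢
  have hexp1 : 1 ≤ exp (ε * p) := Real.one_le_exp (by positivity)
  rcases Nat.lt_or_ge p 2 with hp2 | hp2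
  · have hpe : p = 1 := by omega
    subst hpe
    rw [Nat.sub_self, pow_zero, one_mul, Nat.add_zero] at hm
    obtain ⟨k, hk⟩ := hev
    have h1 := low_hole 0 (F - 1) g ⟨k - 1, by omega⟩ (by omega)
    have e1 : F - 1 + 0 + 1 = F := by omega
    have e2 : (F - 1 + 0) / 2 = k - 1 := by omega
    have e3 : (F + 1) / 2 = k := by omega
    rw [e1, e2, Nat.cast_sub (by omega)] at h1
    rw [e3, pow_one]
    have hkr : 2 * (k : ℝ) = F + 1 := by exact_mod_cast (by omega : 2 * k = F + 1)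
    have hwin := hW.mono ((min_le_right _ _).trans (min_le_left (δl / 2) 1)) (le_refl _)
    obtain ⟨w1, w2, w3, -⟩ := hwin
    have h2 := hlow k g 1 (by omega) (by
      rw [abs_le] at w2 ⊢
      rw [Multiset.sum_singleton] at w3
      push_cast at w3
      exact ⟨lw_a hkr w2.1 w3 hθ1 hδl, lw_b hkr w2.2 hθ hδl hFr⟩) (by
      rw [Multiset.sum_singleton] at w3
      push_cast at w3 ⊢
      exact lw_c hkr w3 hδl)
    have h3 : SST.nu k g ≤ 2 / yy x * SST.nu (k - 1) g := by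
      have h4 := h2.2
      rw [pow_one] at h4
      have h5 : yy x - yy x / 2 = yy x / 2 := by ring
      rw [h5] at h4
      rw [div_mul_eq_mul_div, le_div_iff₀ hy]
      linarith
    have h6 : (F : ℝ) * SST.nu (k - 1) g ≤ Φ := by
      refine le_trans ?_ (h1.trans hm)
      refine mul_le_mul_of_nonneg_right ?_ (low_nn _ _)
      push_cast
      linarith
    calc gam x * F * SST.nu k g ≤ gam x * F * (2 / yy x * SST.nu (k - 1) g) :=
          mul_le_mul_of_nonneg_left h3 (by positivity)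
      _ = gam x * (2 / yy x) * (F * SST.nu (k - 1) g) := by ring
      _ ≤ gam x * (2 / yy x) * Φ := mul_le_mul_of_nonneg_left h6 (by positivity)
      _ ≤ (gam x ^ 2 * (√(yy x))⁻¹ + gam x * (2 / yy x)) * 1 * Φ := by
          refine mul_le_mul_of_nonneg_right ?_ hΦ0
          rw [mul_one]
          have : 0 ≤ gam x ^ 2 * (√(yy x))⁻¹ := by positivity
          linarith
      _ ≤ _ := mul_le_mul_of_nonneg_right (mul_le_mul_of_nonneg_left hexp1 (by positivity)) hΦ0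
  · obtain ⟨m, rfl⟩ : ∃ m, p = m + 2 := ⟨p - 2, by omega⟩
    have hevm : Even (F + m) := by
      obtain ⟨k, hk⟩ := hev
      exact ⟨k - 1, by omega⟩
    have h1 := hnuc m F g (hW.mono (((min_le_left _ _).trans (min_le_right _ _)).trans (by linarith))
      ((le_max_right _ _).trans (le_max_left _ _))) hevm
    have h2 := low_hole m F g hevm (by omega)
    have e1 : m + 2 - 1 = m + 1 := by omega
    rw [e1] at hm
    have hN0 := low_nn ((F + m) / 2) g
    obtain ⟨N, hN⟩ : ∃ N, N = SST.nu ((F + m) / 2) g := ⟨_, rfl⟩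
    rw [← hN] at h1 h2 hN0
    have hm0 : (0 : ℝ) ≤ m := Nat.cast_nonneg _
    have h3 : (AA x * exp (-t)) ^ (m + 1) * (2 * F * N) ≤ Φ := by
      refine le_trans (mul_le_mul_of_nonneg_left ?_ (by positivity)) hm
      refine le_trans ?_ h2
      refine mul_le_mul_of_nonneg_right ?_ hN0
      linarith
    have h4 : AA x ^ m * (F * N) ≤ exp (t * (m + 1)) * Φ := by
      have h5 : (AA x * exp (-t)) ^ (m + 1) * exp (t * (m + 1)) = AA x ^ (m + 1) := by
        rw [mul_pow, ← Real.exp_nat_mul, mul_assoc, ← Real.exp_add]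
        have : ((m + 1 : ℕ) : ℝ) * -t + t * (m + 1) = 0 := by
          push_cast
          ring
        rw [this, Real.exp_zero, mul_one]
      have h6 : exp (t * (m + 1)) * ((AA x * exp (-t)) ^ (m + 1) * (2 * F * N)) ≤ exp (t * (m + 1)) * Φ :=
        mul_le_mul_of_nonneg_left h3 (exp_pos _).le
      have h7 : exp (t * (m + 1)) * ((AA x * exp (-t)) ^ (m + 1) * (2 * F * N)) =
          AA x ^ m * (F * N) * (2 * AA x) := by
        calc _ = ((AA x * exp (-t)) ^ (m + 1) * exp (t * (m + 1))) * (2 * F * N) := by ring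
          _ = _ := by rw [h5]; ring
      rw [h7] at h6
      have h8 : 0 ≤ AA x ^ m * (F * N) := by positivity
      exact lw_d h6 hA2 h8
    have h9 : exp (e * m) * exp (t * (m + 1)) ≤ exp (ε * ((m + 2 : ℕ) : ℝ)) := by
      rw [← Real.exp_add]
      apply Real.exp_le_exp.2
      push_cast
      exact lw_e he0 hte heε hm0
    calc gam x ^ (m + 2) * F * SST.nu ((F + 1) / 2) g
        = gam x ^ 2 * F * (gam x ^ m * SST.nu ((F + 1) / 2) g) := by ring
      _ ≤ gam x ^ 2 * F * (AA x ^ m * (√(yy x))⁻¹ * exp (e * m) * N) :=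
          mul_le_mul_of_nonneg_left h1 (by positivity)
      _ = gam x ^ 2 * (√(yy x))⁻¹ * exp (e * m) * (AA x ^ m * (F * N)) := by ring
      _ ≤ gam x ^ 2 * (√(yy x))⁻¹ * exp (e * m) * (exp (t * (m + 1)) * Φ) :=
          mul_le_mul_of_nonneg_left h4 (by positivity)
      _ = gam x ^ 2 * (√(yy x))⁻¹ * (exp (e * m) * exp (t * (m + 1))) * Φ := by ring
      _ ≤ gam x ^ 2 * (√(yy x))⁻¹ * exp (ε * ((m + 2 : ℕ) : ℝ)) * Φ :=
          mul_le_mul_of_nonneg_right (mul_le_mul_of_nonneg_left h9 (by positivity)) hΦ0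
      _ ≤ _ := by
          refine mul_le_mul_of_nonneg_right (mul_le_mul_of_nonneg_right ?_ (exp_pos _).le) hΦ0
          have : 0 ≤ gam x * (2 / yy x) := by positivity
          linarith

end SYS.Num
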