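import Pool.Agent.SYS.SL.Tut
import Pool.Agent.SYS.SL.Oth
import Pool.Agent.SYS.SL.FarW
import Pool.Agent.SYS.SL.Ind

/-!
# SYS-SL-LowM: the induction for the lower normal form (see `SL/Low`)
-/

namespace SYS.Num

open Finset Real

variable {θ x : ℝ}

theorem low_AA (x : ℝ) : 0 < AA x ∧ 1 / 2 < AA x ∧ AA x ≤ 1 :=
  ⟨by have := AA_gt x; linarith, AA_gt x, (AA_lt x).le⟩

theorem low_yy1 (x : ℝ) : yy x ≤ 1 := by
  have h1 := uu_pos x
  have h2 := uu_lt x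
  rw [yy_eq]
  nlinarith [mul_pos h1 (by linarith : 0 < 1 - uu x), mul_pos h1 (by linarith : 0 < 1 - 2 * uu x)]

theorem low_nn (n g : ℕ) : 0 ≤ SST.nu n g := by
  unfold SST.nu
  exact div_nonneg (Nat.cast_nonneg _) (Nat.cast_nonneg _)

theorem low_gam (x : ℝ) : 0 < gam x := by
  unfold gam
  exact div_pos (low_AA x).1 (Real.sqrt_pos.2 (yy_pos x))

/-- comparison of `nu` -/
theorem low_nuc (h : Par θ x) {e : ℝ} (he : 0 < e) : ∃ (δ : ℝ) (M : ℕ), 0 < δ ∧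
    ∀ m G g : ℕ, Win θ δ M {m + 2} G g → Even (G + m) →
      gam x ^ m * SST.nu ((G + 1) / 2) g ≤
        AA x ^ m * (√(yy x))⁻¹ * exp (e * m) * SST.nu ((G + m) / 2) g := by
  have hy := yy_pos x
  have hy1 := low_yy1 x
  have hs : 0 < √(yy x) := Real.sqrt_pos.2 hy
  have hs1 : √(yy x) ≤ 1 := Real.sqrt_le_one.2 hy1
  have hsq : √(yy x) ^ 2 = yy x := Real.sq_sqrt hy.le
  have hA := (low_AA x).1
  have hθ := h.1
  have hθ1 := h.2.1
  have he1 : 1 < exp (2 * e) := by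
    rw [Real.one_lt_exp_iff]
    linarith
  obtain ⟨δ, M, hδ, H⟩ := nu_up h (ε := yy x * (exp (2 * e) - 1)) (mul_pos hy (by linarith))
  refine ⟨δ / 2, max 1 (2 * M), by positivity, ?_⟩
  intro m G g hW hev
  obtain ⟨w1, w2, w3, -⟩ := hW
  rw [Multiset.sum_singleton] at w3
  have hG : (0 : ℝ) ≤ G := Nat.cast_nonneg _
  push_cast at w3
  obtain ⟨n, hn⟩ : ∃ n, n = (G + m) / 2 := ⟨_, rfl⟩
  obtain ⟨l, hl⟩ : ∃ l, l = n - (G + 1) / 2 := ⟨_, rfl⟩
  have hn2 : 2 * n = G + m := by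
    obtain ⟨k, hk⟩ := hev
    omega
  have hn2' : 2 * (n : ℝ) = G + m := by exact_mod_cast hn2
  have w1' : 2 * M ≤ G := (le_max_right _ _).trans w1
  have key : SST.nu (n - l) g ≤ (yy x + yy x * (exp (2 * e) - 1)) ^ l * SST.nu n g := by
    refine H n g l (by omega) ?_ (by omega)
    have hm : (0 : ℝ) ≤ m := Nat.cast_nonneg _
    rw [abs_le] at w2 ⊢
    constructor <;> nlinarith [w2.1, w2.2]
  have hexp : yy x + yy x * (exp (2 * e) - 1) = yy x * exp (2 * e) := by ring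
  rw [hexp, mul_pow] at key
  rw [← hn]
  rcases Nat.eq_zero_or_pos m with h0 | h0
  · subst h0
    have h1 : (G + 1) / 2 = n := by omega
    rw [h1, pow_zero, pow_zero, one_mul, one_mul, Nat.cast_zero, mul_zero, Real.exp_zero, mul_one]
    have h2 : 1 ≤ (√(yy x))⁻¹ := (one_le_inv₀ hs).2 hs1
    nlinarith [low_nn n g]
  · have h1 : (G + 1) / 2 = n - l := by omega
    have h2l : 2 * l ≤ m ∧ m ≤ 2 * l + 1 := by omega
    rw [h1]
    have h3 : gam x ^ m = AA x ^ m * ((√(yy x))⁻¹) ^ m := by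
      unfold gam
      rw [div_eq_mul_inv, mul_pow]
    have h4 : exp (2 * e) ^ l ≤ exp (e * m) := by
      rw [← Real.exp_nat_mul]
      apply Real.exp_le_exp.2
      have : (2 : ℝ) * l ≤ m := by exact_mod_cast h2l.1
      nlinarith
    have h5 : (√(yy x))⁻¹ ^ m * yy x ^ l ≤ (√(yy x))⁻¹ := by
      have h6 : yy x ^ l = √(yy x) ^ (2 * l) := by rw [pow_mul, hsq]
      rw [h6]
      rcases Nat.lt_or_ge (2 * l) m with h7 | h7
      · have h8 : m = 2 * l + 1 := by omega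
        rw [h8, pow_succ, mul_assoc, mul_comm (√(yy x))⁻¹, ← mul_assoc, ← mul_pow, inv_mul_cancel₀ hs.ne', one_pow, one_mul]
      · have h8 : m = 2 * l := by omega
        rw [h8, ← mul_pow, inv_mul_cancel₀ hs.ne', one_pow]
        exact (one_le_inv₀ hs).2 hs1
    have hAm : 0 ≤ AA x ^ m := by positivity
    have hN := low_nn n g
    calc gam x ^ m * SST.nu (n - l) g
        ≤ gam x ^ m * (yy x ^ l * exp (2 * e) ^ l * SST.nu n g) :=
          mul_le_mul_of_nonneg_left key (pow_nonneg (low_gam x).le _)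
      _ = AA x ^ m * ((√(yy x))⁻¹ ^ m * yy x ^ l) * exp (2 * e) ^ l * SST.nu n g := by rw [h3]; ring
      _ ≤ AA x ^ m * (√(yy x))⁻¹ * exp (e * m) * SST.nu n g := by
          refine mul_le_mul_of_nonneg_right ?_ hN
          exact mul_le_mul (mul_le_mul_of_nonneg_left h5 hAm) h4 (by positivity) (by positivity)

theorem low_hole (m G g : ℕ) (h : Even (G + m)) (hG : 1 ≤ G) :
    3 * ((G : ℝ) + m) * SST.nu ((G + m) / 2) g ≤ muG {1} (G + m + 1) g := by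
  have h1 := hole_ge 1 le_rfl 0 (G + m + 1) g (by omega)
  have e1 : G + m + 1 - 1 % 2 = G + m := by omega
  rw [e1] at h1
  obtain ⟨k, hk⟩ := h
  have e2 : G + m = 2 * k := by omega
  have e3 : (G + m) / 2 = k := by omega
  rw [e3, ← muG_nu k g (by omega), ← e2]
  refine le_trans (le_of_eq ?_) h1
  push_cast
  ring

private theorem low_term (x t e₁ : ℝ) (k a : ℕ) :
    W k a * ((√(yy x) * exp e₁) ^ (k + 2 + a) * (AA x * exp (-t))⁻¹ ^ (k + 2)) =
      qq x k a * exp ((t + e₁) * (k + 2) + e₁ * a) := by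
  by_cases hev : Even (a + k)
  · obtain ⟨j, hj⟩ := hev
    have hy := yy_pos x
    have hs : 0 < √(yy x) := Real.sqrt_pos.2 hy
    have hsq : √(yy x) ^ 2 = yy x := Real.sq_sqrt hy.le
    have hA := (low_AA x).1
    unfold qq
    have e1 : (a + k) / 2 = j := by omega
    have e2 : k + 2 + a = 2 * (1 + j) := by omega
    have e3 : √(yy x) ^ (k + 2 + a) = yy x ^ (1 + j) := by rw [e2, pow_mul, hsq]
    rw [mul_pow, e3, e1, mul_inv, mul_pow, ← Real.exp_neg, neg_neg, ← Real.exp_nat_mul, ← Real.exp_nat_mul]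
    have e4 : exp ((t + e₁) * (k + 2) + e₁ * a) =
        exp (((k + 2 + a : ℕ) : ℝ) * e₁) * exp (((k + 2 : ℕ) : ℝ) * t) := by
      rw [← Real.exp_add]
      congr 1
      push_cast
      ring
    rw [e4, inv_pow]
    field_simp
  · rw [W_odd hev]
    unfold qq
    rw [W_odd hev]
    simp

/-- the sum over the steps -/
private theorem low_sum {t₁ e₁ ρ : ℝ} (hs : Summable fun s : ℕ × ℕ => qq x s.1 s.2 * exp (t₁ * (s.1 + 2) + e₁ * s.2))
    (hr : AA x * exp (-t₁ + e₁) + 2 * ∑' s : ℕ × ℕ, qq x s.1 s.2 * exp (t₁ * (s.1 + 2) + e₁ * s.2) ≤ ρ)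
    (S : Finset (ℕ × ℕ)) :
    2 * ∑ z ∈ S, W z.1 z.2 * ((√(yy x) * exp e₁) ^ (z.1 + 2 + z.2) * (AA x * exp (-(t₁ - e₁)))⁻¹ ^ (z.1 + 2)) ≤
      ρ - AA x * exp (-(t₁ - e₁)) := by
  have h1 : ∀ z ∈ S, W z.1 z.2 * ((√(yy x) * exp e₁) ^ (z.1 + 2 + z.2) *
      (AA x * exp (-(t₁ - e₁)))⁻¹ ^ (z.1 + 2)) = qq x z.1 z.2 * exp (t₁ * (z.1 + 2) + e₁ * z.2) := by
    intro z _
    rw [low_term]
    congr 2
    ring
  rw [Finset.sum_congr rfl h1]
  have h2 : ∑ z ∈ S, qq x z.1 z.2 * exp (t₁ * (z.1 + 2) + e₁ * z.2) ≤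
      ∑' s : ℕ × ℕ, qq x s.1 s.2 * exp (t₁ * (s.1 + 2) + e₁ * s.2) :=
    hs.sum_le_tsum S fun z _ => mul_nonneg (qq_nonneg x _ _) (exp_pos _).le
  have h3 : -t₁ + e₁ = -(t₁ - e₁) := by ring
  rw [h3] at hr
  linarith

private theorem lm_a (p C₀ : ℕ) : p * (C₀ * (p + 1) + p + 2) + (2 * p + 1) ≤ (C₀ + 3) * (p + 1) ^ 2 := by
  have h : (C₀ + 3) * (p + 1) ^ 2 = p * (C₀ * (p + 1) + p + 2) + (2 * p + 1) + (C₀ * (p + 1) + 2 * p ^ 2 + 2 * p + 2) := by ring
  omega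

private theorem lm_b {δ θ F g : ℝ} (h1 : -(δ * F) ≤ 2 * g - θ * F) (h2 : δ ≤ θ / 2) (hθ : 0 < θ) (hF : 0 < F) : 0 < 2 * g := by
  have h3 : δ * F ≤ θ / 2 * F := mul_le_mul_of_nonneg_right h2 hF.le
  have h4 : 0 < θ * F := mul_pos hθ hF
  linarith

private theorem lm_c {L c C₀ p : ℝ} (h : L ≤ c * C₀) (hp : 1 ≤ p) : -c * (C₀ * (p + 1)) ≤ -(L * (p + 1)) := by
  have h1 : L * (p + 1) ≤ c * C₀ * (p + 1) := mul_le_mul_of_nonneg_right h (by linarith)
  linarith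

private theorem lm_d {M p : ℝ} (h : 0 ≤ M) (hp : 1 ≤ p) : -M * (p + 1) ≤ -M := by
  have h1 : 0 ≤ M * p := mul_nonneg h (by linarith)
  linarith

private theorem lm_e {K X η G F : ℝ} (hc3 : 4 * K * X ≤ F * η) (h1 : 3 / 4 * F ≤ G) (hη : 0 < η) (hF : 0 ≤ F) :
    2 * (K * X) ≤ η * G := by
  have h2 : η * (3 / 4 * F) ≤ η * G := mul_le_mul_of_nonneg_left h1 hη.le
  have h3 : 0 ≤ η * F := mul_nonneg hη.le hF
  linarith

private theorem lm_f {e t m p : ℝ} (he : 0 < e) (hte : t ≤ e) (hm0 : 0 ≤ m) (hmp : m + 1 ≤ p) :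
    e * m + e * m + t * (m + 1) ≤ 3 * e * p := by
  have h1 : t * (m + 1) ≤ e * (m + 1) := mul_le_mul_of_nonneg_right hte (by linarith)
  have h2 : e * (m + 1) ≤ e * p := mul_le_mul_of_nonneg_left hmp he.le
  linarith

private theorem lm_g {o A X Y : ℝ} (h4 : o ≤ X) (h9 : X * A ≤ Y) (hA : 1 / 2 < A) (h0 : 0 ≤ X) : o ≤ Y * 2 := by
  have h1 : X * (1 / 2) ≤ X * A := mul_le_mul_of_nonneg_left hA.le h0
  linarith

/-- the small terms -/
private theorem low_other {e t K₂ η : ℝ} {m p G g : ℕ} (he : 0 < e) (_ : 0 ≤ t) (hte : t ≤ e) (hK₂ : 0 < K₂)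
    (hG : 1 ≤ G) (hev : Even (G + m)) (hm : m + 1 ≤ p)
    (hN : gam x ^ m * SST.nu ((G + 1) / 2) g ≤
        AA x ^ m * (√(yy x))⁻¹ * exp (e * m) * SST.nu ((G + m) / 2) g)
    {Φ o : ℝ} (ho : o ≤ K₂ * exp (e * m) * gam x ^ m * SST.nu ((G + 1) / 2) g)
    (hΦ : (AA x * exp (-t)) ^ (m + 1) * muG {1} (G + m + 1) g ≤ Φ)
    (hη : 0 ≤ η)
    (hsm : 2 * (K₂ * (√(yy x))⁻¹ * exp (3 * e * p)) ≤ η * G) : o ≤ η * Φ := by
  have hy := yy_pos x
  have hs : 0 < √(yy x) := Real.sqrt_pos.2 hy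
  obtain ⟨hA, hA2, -⟩ := low_AA x
  have hG' : (1 : ℝ) ≤ G := by exact_mod_cast hG
  have hm0 : (0 : ℝ) ≤ m := Nat.cast_nonneg _
  have hmp : (m : ℝ) + 1 ≤ p := by exact_mod_cast hm
  have hN0 := low_nn ((G + m) / 2) g
  obtain ⟨N, hNe⟩ : ∃ N, N = SST.nu ((G + m) / 2) g := ⟨_, rfl⟩
  rw [← hNe] at hN hN0
  have h1 := low_hole m G g hev hG
  rw [← hNe] at h1
  have h2 : (AA x * exp (-t)) ^ (m + 1) * (3 * ((G : ℝ) + m) * N) ≤ Φ :=
    (mul_le_mul_of_nonneg_left h1 (by positivity)).trans hΦ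
  have h3 : (AA x * exp (-t)) ^ (m + 1) * (G * N) ≤ Φ := by
    refine le_trans (mul_le_mul_of_nonneg_left ?_ (by positivity)) h2
    refine mul_le_mul_of_nonneg_right ?_ hN0
    linarith
  have h4 : o ≤ K₂ * exp (e * m) * (AA x ^ m * (√(yy x))⁻¹ * exp (e * m) * N) := by
    refine ho.trans ?_
    rw [mul_assoc (K₂ * exp (e * m))]
    exact mul_le_mul_of_nonneg_left hN (by positivity)
  have h5 : exp (e * m) * exp (e * m) * exp (t * (m + 1)) ≤ exp (3 * e * p) := by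
    rw [← Real.exp_add, ← Real.exp_add]
    exact Real.exp_le_exp.2 (lm_f he hte hm0 hmp)
  have h6 : (AA x * exp (-t)) ^ (m + 1) * exp (t * (m + 1)) = AA x ^ (m + 1) := by
    rw [mul_pow, ← Real.exp_nat_mul, mul_assoc, ← Real.exp_add]
    have : ((m + 1 : ℕ) : ℝ) * -t + t * (m + 1) = 0 := by
      push_cast
      ring
    rw [this, Real.exp_zero, mul_one]
  -- `o * AA ≤ η * AA^(m+1) exp(-t(m+1)) G N`
  have h7 : o ≤ K₂ * (√(yy x))⁻¹ * exp (3 * e * p) * ((AA x * exp (-t)) ^ (m + 1) * N) * 2 := by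
    have h8 : K₂ * exp (e * m) * (AA x ^ m * (√(yy x))⁻¹ * exp (e * m) * N) * AA x =
        K₂ * (√(yy x))⁻¹ * (exp (e * m) * exp (e * m) * exp (t * (m + 1))) *
          ((AA x * exp (-t)) ^ (m + 1) * N) := by
      calc _ = K₂ * (√(yy x))⁻¹ * (exp (e * m) * exp (e * m)) * (AA x ^ (m + 1)) * N := by ring
        _ = _ := by rw [← h6]; ring
    have h9 : K₂ * exp (e * m) * (AA x ^ m * (√(yy x))⁻¹ * exp (e * m) * N) * AA x ≤
        K₂ * (√(yy x))⁻¹ * exp (3 * e * p) * ((AA x * exp (-t)) ^ (m + 1) * N) := by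
      rw [h8]
      refine mul_le_mul_of_nonneg_right (mul_le_mul_of_nonneg_left h5 (by positivity)) (by positivity)
    have h10 : 0 ≤ K₂ * exp (e * m) * (AA x ^ m * (√(yy x))⁻¹ * exp (e * m) * N) := by positivity
    exact lm_g h4 h9 hA2 h10
  have h11 : 0 ≤ (AA x * exp (-t)) ^ (m + 1) * N := by positivity
  calc o ≤ K₂ * (√(yy x))⁻¹ * exp (3 * e * p) * ((AA x * exp (-t)) ^ (m + 1) * N) * 2 := h7
    _ = 2 * (K₂ * (√(yy x))⁻¹ * exp (3 * e * p)) * ((AA x * exp (-t)) ^ (m + 1) * N) := by ring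
    _ ≤ η * G * ((AA x * exp (-t)) ^ (m + 1) * N) := mul_le_mul_of_nonneg_right hsm h11
    _ = η * ((AA x * exp (-t)) ^ (m + 1) * (G * N)) := by ring
    _ ≤ η * Φ := mul_le_mul_of_nonneg_left h3 hη

/-- the whole induction for one `p`, under numerical conditions -/
theorem low_main (h : Par θ x) {e : ℝ} (he : 0 < e) : ∃ (t : ℝ) (C₁ : ℕ) (K' δ : ℝ) (M : ℕ),
    0 ≤ t ∧ t ≤ e ∧ 0 < δ ∧ δ ≤ 1 ∧ ∀ p F g : ℕ, 1 ≤ p → Win θ (δ / 4) (2 * M) {p} F g →
      C₁ * (p + 1) ^ 2 ≤ F → (C₁ * (p + 1) ^ 2 : ℝ) ≤ δ / 4 * F → K' * exp (3 * e * p) ≤ F →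
      (AA x * exp (-t)) ^ (p - 1) * muG {1} (F + (p - 1)) g ≤ muG {p} F g := by
  obtain ⟨hθ, hθ1, hx, -⟩ := id h
  obtain ⟨t₀, ht₀, htilt⟩ := tilt hx
  obtain ⟨t₁, ht₁⟩ : ∃ t₁, t₁ = min t₀ e := ⟨_, rfl⟩
  have ht₁0 : 0 < t₁ := by rw [ht₁]; exact lt_min ht₀ he
  obtain ⟨e₀, he₀, ρ, hρ, hT⟩ := htilt t₁ ht₁0 (by rw [ht₁]; exact min_le_left _ _)
  obtain ⟨e₁, he₁⟩ : ∃ e₁, e₁ = min e₀ (t₁ / 2) := ⟨_, rfl⟩
  have he₁0 : 0 < e₁ := by rw [he₁]; exact lt_min he₀ (by linarith)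
  obtain ⟨hTs, hTr⟩ := hT e₁ he₁0.le (by rw [he₁]; exact min_le_left _ _)
  have he₁t : e₁ ≤ t₁ / 2 := by rw [he₁]; exact min_le_right _ _
  obtain ⟨t, htt⟩ : ∃ t, t = t₁ - e₁ := ⟨_, rfl⟩
  have ht0 : 0 ≤ t := by rw [htt]; linarith
  have hte : t ≤ e := by
    have : t₁ ≤ e := by rw [ht₁]; exact min_le_right _ _
    rw [htt]
    linarith
  obtain ⟨η, hη⟩ : ∃ η, η = (1 - ρ) / 2 := ⟨_, rfl⟩
  have hη0 : 0 < η := by rw [hη]; linarith
  have hy := yy_pos x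
  have hs : 0 < √(yy x) := Real.sqrt_pos.2 hy
  have hsq : √(yy x) ^ 2 = yy x := Real.sq_sqrt hy.le
  obtain ⟨hA, hA2, hA3⟩ := low_AA x
  obtain ⟨C, c, δf, Mf, hC, hc, hδf, hfar⟩ := farW h
  obtain ⟨K₂, δo, Mo, hK₂, hδo, hoth⟩ := oth_le h he
  have hex : 1 < exp (2 * e₁) := by
    rw [Real.one_lt_exp_iff]
    linarith
  obtain ⟨δu, Mu, hδu, hup⟩ := all_up h (ε := exp (2 * e₁) - 1) (by linarith)
  obtain ⟨δn, Mn, hδn, hnuc⟩ := low_nuc h he
  obtain ⟨δ, hδ⟩ : ∃ d, d = min (min (min δf δo) (min δu δn)) (min (θ / 2) 1) := ⟨_, rfl⟩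
  have hδ0 : 0 < δ := by
    rw [hδ]
    exact lt_min (lt_min (lt_min hδf hδo) (lt_min hδu hδn)) (lt_min (by linarith) one_pos)
  have d1 : δ ≤ δf := by rw [hδ]; exact (min_le_left _ _).trans ((min_le_left _ _).trans (min_le_left _ _))
  have d2 : δ ≤ δo := by rw [hδ]; exact (min_le_left _ _).trans ((min_le_left _ _).trans (min_le_right _ _))
  have d3 : δ ≤ δu := by rw [hδ]; exact (min_le_left _ _).trans ((min_le_right _ _).trans (min_le_left _ _))
  have d4 : δ ≤ δn := by rw [hδ]; exact (min_le_left _ _).trans ((min_le_right _ _).trans (min_le_right _ _))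
  have d5 : δ ≤ θ / 2 := by rw [hδ]; exact (min_le_right _ _).trans (min_le_left _ _)
  have d6 : δ ≤ 1 := by rw [hδ]; exact (min_le_right _ _).trans (min_le_right _ _)
  obtain ⟨M, hM⟩ : ∃ M, M = max 2 (max (max Mf Mo) (max Mu Mn)) := ⟨_, rfl⟩
  have m0 : 2 ≤ M := by rw [hM]; exact le_max_left _ _
  have m1 : Mf ≤ M := by rw [hM]; exact (le_max_left _ _).trans ((le_max_left _ _).trans (le_max_right _ _))
  have m2 : Mo ≤ M := by rw [hM]; exact (le_max_right _ _).trans ((le_max_left _ _).trans (le_max_right _ _))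
  have m3 : Mu ≤ M := by rw [hM]; exact (le_max_left _ _).trans ((le_max_right _ _).trans (le_max_right _ _))
  have m4 : Mn ≤ M := by rw [hM]; exact (le_max_right _ _).trans ((le_max_right _ _).trans (le_max_right _ _))
  -- the constant `C₁`
  obtain ⟨L, hL⟩ : ∃ L, L = max 0 (log C) + max 0 (log (2 / η)) := ⟨_, rfl⟩
  obtain ⟨C₀, hC₀⟩ := exists_nat_ge (L / c)
  refine ⟨t, C₀ + 3, 4 * (K₂ * (√(yy x))⁻¹) / η, δ, M, ht0, hte, hδ0, d6, ?_⟩
  intro p F g hp hW hc1 hc2 hc3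
  have hF2 : 2 * M ≤ F := hW.1
  have hFr : (0 : ℝ) ≤ F := Nat.cast_nonneg _
  have hpr : (1 : ℝ) ≤ p := by exact_mod_cast hp
  push_cast at hc2
  have hC₀r : (0 : ℝ) ≤ C₀ := Nat.cast_nonneg _
  -- the shifts
  obtain ⟨D, hD⟩ : ∃ D, D = C₀ * (p + 1) := ⟨_, rfl⟩
  have hsh : p * (D + p + 2) + (2 * p + 1) ≤ (C₀ + 3) * (p + 1) ^ 2 := by
    rw [hD]
    exact lm_a p C₀
  obtain ⟨s0, hs0⟩ : ∃ s0, s0 = p * (D + p + 2) := ⟨_, rfl⟩
  have hshr : ((s0 : ℕ) : ℝ) + (2 * p + 1) ≤ δ / 4 * F := by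
    refine le_trans ?_ hc2
    rw [hs0]
    exact_mod_cast hsh
  have hs0r : (0 : ℝ) ≤ s0 := Nat.cast_nonneg _
  have hs0F : s0 ≤ F := by rw [hs0]; omega
  have hwin : ∀ q G : ℕ, 1 ≤ q → q ≤ p + 1 → F - s0 ≤ G → G ≤ F + (2 * p + 1) → Win θ δ M {q} G g := by
    intro q G hq1 hq2 hG1 hG2
    have g1 : (F : ℝ) ≤ G + s0 := by exact_mod_cast (by omega : F ≤ G + s0)
    have g2 : (G : ℝ) ≤ F + (2 * p + 1) := by exact_mod_cast hG2
    have g3 : (q : ℝ) ≤ p + 1 := by exact_mod_cast hq2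
    refine hW.shift hθ.le hθ1.le hδ0.le d6 (by linarith) (by linarith) ?_ ?_
    · rw [Multiset.sum_singleton]
      linarith
    · intro r hr
      rw [Multiset.mem_singleton] at hr
      omega
  have hg1 : 1 ≤ g := by
    have w2 := (hwin 1 F le_rfl (by omega) (by omega) (by omega)).2.1
    rw [abs_le] at w2
    have hF0 : (0 : ℝ) < F := by
      have : 0 < F := by omega
      exact_mod_cast this
    have : (0 : ℝ) < 2 * g := lm_b w2.1 d5 hθ hF0
    have h3 : (0 : ℝ) < g := by linarith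
    have h4 : 0 < g := by exact_mod_cast h3
    omega
  have hGr : ∀ G : ℕ, F - s0 ≤ G → 3 / 4 * (F : ℝ) ≤ G := by
    intro G hG1
    have g1 : (F : ℝ) ≤ G + s0 := by exact_mod_cast (by omega : F ≤ G + s0)
    have g2 : δ / 4 * (F : ℝ) ≤ 1 / 4 * F := mul_le_mul_of_nonneg_right (by linarith) hFr
    linarith
  have hlo : ∀ G : ℕ, F - s0 ≤ G → 1 ≤ G := by
    intro G hG
    have h1 := hGr G hG
    have h2 : (0 : ℝ) < G := by
      have : 0 < F := by omega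
      have h3 : (0 : ℝ) < F := by exact_mod_cast this
      linarith
    exact_mod_cast h2
  have hA0 : 0 < AA x * exp (-t) := by positivity
  have hb0 : 0 ≤ √(yy x) * exp e₁ := by positivity
  obtain ⟨o, ho⟩ : ∃ o : ℕ → ℕ → ℝ, ∀ m G, o m G =
      ∑ z ∈ antidiagonal m, muG {z.1, z.2} G (g - 1) + ∑ z ∈ antidiagonal m, LL 1 {z.1} {z.2} G g :=
    ⟨_, fun _ _ => rfl⟩
  obtain ⟨Φ, hΦ⟩ : ∃ Φ : ℕ → ℕ → ℝ, ∀ q G, Φ q G = muG {q} G g := ⟨_, fun _ _ => rfl⟩
  have hΦ0 : ∀ q G, 0 ≤ Φ q G := fun q G => by rw [hΦ]; exact muG_nonneg _ _ _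
  have hpar : ∀ k a, W k a ≠ 0 → Even (k + a) := fun k a hka => by
    by_contra hne
    exact hka (W_odd (by rwa [Nat.add_comm]))
  have hzero : ∀ G, Φ 0 G = 0 := fun G => by
    rw [hΦ]
    have := tutG_zero 0 G g
    rw [if_neg (by omega)] at this
    exact this
  have hone : ∀ G, F - s0 ≤ G → G ≤ F + (2 * p + 1) → AA x * exp (-t) * Φ 1 G ≤ Φ 2 (G - 1) := fun G hG1 _ => by
    have hG := hlo G hG1
    have h1 : muG {1} G g = muG {2} (G - 1) g := by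
      have := tutG_one 0 G g
      rw [if_neg (by omega), Multiset.map_zero, Multiset.sum_zero, add_zero] at this
      exact this
    rw [hΦ, hΦ, h1]
    have h2 : AA x * exp (-t) ≤ 1 := by
      have : exp (-t) ≤ 1 := Real.exp_le_one_iff.2 (by linarith)
      exact mul_le_one₀ hA3 (exp_pos _).le this
    exact mul_le_of_le_one_left (muG_nonneg _ _ _) h2
  have htut : ∀ m G, m + 2 ≤ p → F - s0 ≤ G → G ≤ F + (2 * p + 1) → G ≠ 0 → Φ (m + 2) G ≤
      Φ (m + 3) (G - 1) + o m G + 2 * ∑ z ∈ antidiagonal m, ∑ y ∈ antidiagonal G, W z.1 y.1 * Φ z.2 y.2 := by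
    intro m G _ _ _ hG
    have h1 := tut_le m G g hg1
    rw [if_neg hG] at h1
    simp only [hΦ, ho]
    linarith
  have hdec : ∀ m, m + 2 ≤ p → 2 * (C ^ (m + 1) * exp (-c * D)) ≤ η := by
    intro m hm
    have hm' : (m : ℝ) + 1 ≤ p + 1 := by
      have : (m : ℝ) + 2 ≤ p := by exact_mod_cast hm
      linarith
    have h1 : C ^ (m + 1) ≤ exp (max 0 (log C) * (p + 1)) := by
      calc C ^ (m + 1) = exp (log C) ^ (m + 1) := by rw [Real.exp_log hC]
        _ ≤ exp (max 0 (log C)) ^ (m + 1) :=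
          pow_le_pow_left₀ (exp_pos _).le (Real.exp_le_exp.2 (le_max_right _ _)) _
        _ = exp (max 0 (log C) * (m + 1)) := by
          rw [← Real.exp_nat_mul]
          congr 1
          push_cast
          ring
        _ ≤ _ := Real.exp_le_exp.2 (mul_le_mul_of_nonneg_left hm' (le_max_left _ _))
    have h2 : -c * D ≤ -(L * (p + 1)) := by
      have h3 : L ≤ c * C₀ := by
        rw [div_le_iff₀ hc] at hC₀
        linarith
      have h4 : (D : ℝ) = C₀ * (p + 1) := by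
        rw [hD]
        push_cast
        ring
      rw [h4]
      exact lm_c h3 hpr
    have h5 : exp (-(max 0 (log (2 / η)))) ≤ η / 2 := by
      calc exp (-(max 0 (log (2 / η)))) ≤ exp (-log (2 / η)) :=
            Real.exp_le_exp.2 (neg_le_neg (le_max_right _ _))
        _ = η / 2 := by
            rw [Real.exp_neg, Real.exp_log (by positivity), inv_div]
    have h6 : C ^ (m + 1) * exp (-c * D) ≤ exp (-(max 0 (log (2 / η)))) := by
      calc C ^ (m + 1) * exp (-c * D) ≤ exp (max 0 (log C) * (p + 1)) * exp (-(L * (p + 1))) :=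
            mul_le_mul h1 (Real.exp_le_exp.2 h2) (exp_pos _).le (exp_pos _).le
        _ = exp (-(max 0 (log (2 / η))) * (p + 1)) := by
            rw [← Real.exp_add, hL]
            congr 1
            ring
        _ ≤ _ := by
            apply Real.exp_le_exp.2
            have h7 : 0 ≤ max 0 (log (2 / η)) := le_max_left _ _
            exact lm_d h7 hpr
    linarith
  have hfar' : ∀ m G, m + 2 ≤ p → F - s0 ≤ G → G ≤ F + (2 * p + 1) →
      2 * ∑ z ∈ antidiagonal m, ∑ y ∈ (antidiagonal G).filter (fun y => D < y.1), W z.1 y.1 * Φ z.2 y.2 ≤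
        η * Φ (m + 2) G := by
    intro m G hm hG1 hG2
    have h1 := hfar m G g D ((hwin (m + 2) G (by omega) (by omega) hG1 hG2).mono d1 m1)
    have h2 := hdec m hm
    simp only [hΦ]
    have h3 : 0 ≤ muG {m + 2} G g := muG_nonneg _ _ _
    refine (mul_le_mul_of_nonneg_left h1 (by norm_num)).trans ?_
    rw [← mul_assoc]
    exact mul_le_mul_of_nonneg_right h2 h3
  have hup' : ∀ m G v, m + 2 ≤ p → F - s0 ≤ G → G ≤ F + (2 * p + 1) → 2 * v ≤ G →
      Φ (m + 2) (G - 2 * v) ≤ ((√(yy x) * exp e₁) ^ 2) ^ v * Φ (m + 2) G := by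
    intro m G v hm hG1 hG2 hv
    have h1 := hup {m + 2} G g v ((hwin (m + 2) G (by omega) (by omega) hG1 hG2).mono d3 m3) hv
    have h2 : (1 + (exp (2 * e₁) - 1)) * yy x = (√(yy x) * exp e₁) ^ 2 := by
      rw [mul_pow, hsq, ← Real.exp_nat_mul]
      push_cast
      ring
    rw [h2] at h1
    rw [hΦ, hΦ]
    exact h1
  have hsum' : ∀ S : Finset (ℕ × ℕ), 2 * ∑ z ∈ S, W z.1 z.2 *
      ((√(yy x) * exp e₁) ^ (z.1 + 2 + z.2) * (AA x * exp (-t))⁻¹ ^ (z.1 + 2)) ≤ ρ - AA x * exp (-t) := by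
    intro S
    have := low_sum hTs hTr S
    rw [← htt] at this
    exact this
  have hoth' : ∀ m G, m + 2 ≤ p → F - s0 ≤ G → G ≤ F + (2 * p + 1) →
      (AA x * exp (-t)) ^ (m + 1) * Φ 1 (G + m + 1) ≤ Φ (m + 2) G → o m G ≤ η * Φ (m + 2) G := by
    intro m G hm hG1 hG2 hl
    rw [hΦ] at hl
    by_cases hev : Even (G + m)
    · have hw := hwin (m + 2) G (by omega) (by omega) hG1 hG2
      have h2 := hoth m G g (hw.mono d2 m2)
      rw [← ho] at h2
      refine low_other (p := p) he ht0 hte hK₂ (hlo G hG1) hev (by omega) (hnuc m G g (hw.mono d4 m4) hev)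
        h2 hl hη0.le ?_
      have h1 := hGr G hG1
      rw [div_mul_eq_mul_div, div_le_iff₀ hη0] at hc3
      exact lm_e hc3 h1 hη0 hFr
    · have h1 := oth_odd m G (g - 1) g hev
      rw [ho, h1]
      exact mul_nonneg hη0.le (hΦ0 _ _)
  have hind := ind Φ o W (AA x * exp (-t)) (√(yy x) * exp e₁) (ρ - AA x * exp (-t)) η (F - s0)
    (F + (2 * p + 1)) p D hΦ0 W_nonneg hA0 hb0 hpar hzero hone htut hfar' hup' hsum' hoth'
    (by rw [hη]; linarith)
  simp only [hΦ] at hind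
  -- the chain
  have hch : ∀ j, j ≤ p - 1 → (AA x * exp (-t)) ^ j * muG {1} (F + (p - 1)) g ≤ muG {1 + j} (F + (p - 1) - j) g := by
    intro j
    induction j with
    | zero =>
      intro _
      rw [pow_zero, one_mul, Nat.add_zero, Nat.sub_zero]
    | succ j ih =>
      intro hj
      have h1 := hind (1 + j) (F + (p - 1) - j) (by omega) (by omega) (by
        have h2 : (1 + j) * (D + p + 2) ≤ p * (D + p + 2) := Nat.mul_le_mul_right _ (by omega)
        rw [← hs0] at h2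
        omega) (by omega)
      have h3 : (AA x * exp (-t)) ^ (j + 1) * muG {1} (F + (p - 1)) g =
          AA x * exp (-t) * ((AA x * exp (-t)) ^ j * muG {1} (F + (p - 1)) g) := by ring
      rw [h3]
      have h4 : F + (p - 1) - (j + 1) = F + (p - 1) - j - 1 := by omega
      have h5 : 1 + (j + 1) = 1 + j + 1 := by omega
      rw [h4, h5]
      exact (mul_le_mul_of_nonneg_left (ih (by omega)) (by positivity)).trans h1
  have h6 := hch (p - 1) le_rfl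
  have h7 : 1 + (p - 1) = p := by omega
  have h8 : F + (p - 1) - (p - 1) = F := by omega
  rw [h7, h8] at h6
  exact h6

end SYS.Num
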