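import Pool.Agent.SYS.SH.HpL
import Pool.Agent.SYS.BD.MgT

/-!
# SYS-SL-Tut: the Tutte equation for one hole as an upper bound; parity

`tut_le` PROOF.  `tutG m 0 F g` (`{p} = p ::ₘ 0` by definition).  The last sum (over `Q = 0`) is `0`.  `SYS.A.conv f h 0 = f 0 * h 0` (unfold `conv`, `Multiset.antidiagonal_zero`).  So for fixed `x, y` the third term is
`∑_{z ∈ antidiagonal g} muG {x.1} y.1 z.1 * muG {x.2} y.2 z.2`.  Every `z` satisfies one of: `z.1 = 0` (then `z.2 = g`; the term is `W x.1 y.1 * muG {x.2} y.2 g`), `z.2 = 0` (`muG {x.1} y.1 g * W x.2 y.2`), or `1 ≤ z.1` and `1 ≤ z.2`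
(the condition of `LL 1 {x.1} {x.2}`: `2 ≤ 1 + 2 z.1 ∧ 2 ≤ 1 + 2 z.2`).  All terms are nonnegative, so the sum over `z` is at most
`W x.1 y.1 * muG {x.2} y.2 g + muG {x.1} y.1 g * W x.2 y.2 + ∑_z if 2 ≤ 1 + 2 z.1 ∧ 2 ≤ 1 + 2 z.2 then .. else 0` (in fact equality as `g ≥ 1`).  Sum over `x, y`; the two first parts are equal by the symmetry `x ↦ x.swap`, `y ↦ y.swap`
(`Finset.Nat.sum_antidiagonal_swap`); the third is `∑_x LL 1 {x.1} {x.2} F g` by definition.

`oth_odd` PROOF.  `muG_odd`: `{z.1, z.2}.sum = z.1 + z.2 = m`.  In `LL` a product `muG {z.1} f.1 e.1 * muG {z.2} f.2 e.2 ≠ 0` needs `f.1 + z.1` and `f.2 + z.2` even, sum `F + m`.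
-/

namespace SYS.Num

open Finset Real

private theorem tut_z (k l a b g : ℕ) :
    ∑ z ∈ antidiagonal g, muG {k} a z.1 * muG {l} b z.2 ≤
      W k a * muG {l} b g + muG {k} a g * W l b +
      ∑ z ∈ antidiagonal g, if 1 + 1 ≤ Multiset.card ({k} : Multiset ℕ) + 2 * z.1 ∧
        1 + 1 ≤ Multiset.card ({l} : Multiset ℕ) + 2 * z.2 then muG {k} a z.1 * muG {l} b z.2 else 0 := by
  have hnn : ∀ z : ℕ × ℕ, 0 ≤ muG {k} a z.1 * muG {l} b z.2 := fun z =>
    mul_nonneg (muG_nonneg _ _ _) (muG_nonneg _ _ _)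
  have h1 : ∀ z ∈ antidiagonal g, muG {k} a z.1 * muG {l} b z.2 ≤
      ((if z = (0, g) then muG {k} a z.1 * muG {l} b z.2 else 0) +
        (if z = (g, 0) then muG {k} a z.1 * muG {l} b z.2 else 0)) +
      (if 1 + 1 ≤ Multiset.card ({k} : Multiset ℕ) + 2 * z.1 ∧
        1 + 1 ≤ Multiset.card ({l} : Multiset ℕ) + 2 * z.2 then muG {k} a z.1 * muG {l} b z.2 else 0) := by
    intro z hz
    rw [HasAntidiagonal.mem_antidiagonal] at hz
    have i1 : 0 ≤ (if z = (0, g) then muG {k} a z.1 * muG {l} b z.2 else 0) := by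
      split_ifs
      · exact hnn z
      · exact le_rfl
    have i2 : 0 ≤ (if z = (g, 0) then muG {k} a z.1 * muG {l} b z.2 else 0) := by
      split_ifs
      · exact hnn z
      · exact le_rfl
    have i3 : 0 ≤ (if 1 + 1 ≤ Multiset.card ({k} : Multiset ℕ) + 2 * z.1 ∧
        1 + 1 ≤ Multiset.card ({l} : Multiset ℕ) + 2 * z.2 then muG {k} a z.1 * muG {l} b z.2 else 0) := by
      split_ifs
      · exact hnn z
      · exact le_rfl
    by_cases hz1 : z.1 = 0
    · have hz2 : z = (0, g) := Prod.ext hz1 (by simpa [hz1] using hz)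
      rw [if_pos hz2] at i1 ⊢
      linarith
    by_cases hz2 : z.2 = 0
    · have hz3 : z = (g, 0) := Prod.ext (by simpa [hz2] using hz) hz2
      rw [if_pos hz3] at i2 ⊢
      linarith
    have hc : 1 + 1 ≤ Multiset.card ({k} : Multiset ℕ) + 2 * z.1 ∧
        1 + 1 ≤ Multiset.card ({l} : Multiset ℕ) + 2 * z.2 := by
      rw [Multiset.card_singleton, Multiset.card_singleton]
      omega
    rw [if_pos hc] at i3 ⊢
    linarith
  refine (sum_le_sum h1).trans (le_of_eq ?_)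
  rw [sum_add_distrib, sum_add_distrib]
  congr 1
  congr 1
  · rw [sum_ite_eq', if_pos (by rw [HasAntidiagonal.mem_antidiagonal]; simp)]
    rfl
  · rw [sum_ite_eq', if_pos (by rw [HasAntidiagonal.mem_antidiagonal]; simp)]
    rfl

theorem tut_le (m F g : ℕ) (hg : 1 ≤ g) :
    muG {m + 2} F g ≤ (if F = 0 then 0 else muG {m + 3} (F - 1) g) +
      ∑ z ∈ antidiagonal m, muG {z.1, z.2} F (g - 1) +
      2 * ∑ z ∈ antidiagonal m, ∑ y ∈ antidiagonal F, W z.1 y.1 * muG {z.2} y.2 g +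
      ∑ z ∈ antidiagonal m, LL 1 {z.1} {z.2} F g := by
  have h := tutG m 0 F g
  have hconv : ∀ x y z : ℕ × ℕ,
      SYS.A.conv (fun R => muG (x.1 ::ₘ R) y.1 z.1) (fun R => muG (x.2 ::ₘ R) y.2 z.2) 0 =
        muG {x.1} y.1 z.1 * muG {x.2} y.2 z.2 := by
    intro x y z
    unfold SYS.A.conv
    rw [Multiset.antidiagonal_zero, Multiset.map_singleton, Multiset.sum_singleton]
    rfl
  simp only [hconv] at h
  rw [Multiset.map_zero, Multiset.sum_zero, add_zero, if_neg (by omega : ¬ g = 0)] at h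
  have h2 : ∑ x ∈ antidiagonal m, ∑ y ∈ antidiagonal F, ∑ z ∈ antidiagonal g,
      muG {x.1} y.1 z.1 * muG {x.2} y.2 z.2 ≤
      ∑ x ∈ antidiagonal m, ∑ y ∈ antidiagonal F, W x.1 y.1 * muG {x.2} y.2 g +
      ∑ x ∈ antidiagonal m, ∑ y ∈ antidiagonal F, muG {x.1} y.1 g * W x.2 y.2 +
      ∑ x ∈ antidiagonal m, LL 1 {x.1} {x.2} F g := by
    rw [← sum_add_distrib, ← sum_add_distrib]
    refine sum_le_sum fun x _ => ?_
    unfold LL
    rw [← sum_add_distrib, ← sum_add_distrib]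
    exact sum_le_sum fun y _ => tut_z x.1 x.2 y.1 y.2 g
  have h3 : ∑ x ∈ antidiagonal m, ∑ y ∈ antidiagonal F, muG {x.1} y.1 g * W x.2 y.2 =
      ∑ x ∈ antidiagonal m, ∑ y ∈ antidiagonal F, W x.1 y.1 * muG {x.2} y.2 g := by
    rw [← Finset.Nat.sum_antidiagonal_swap (n := m)
      (f := fun x => ∑ y ∈ antidiagonal F, W x.1 y.1 * muG {x.2} y.2 g)]
    refine sum_congr rfl fun x _ => ?_
    rw [← Finset.Nat.sum_antidiagonal_swap (n := F) (f := fun y => W x.swap.1 y.1 * muG {x.swap.2} y.2 g)]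
    refine sum_congr rfl fun y _ => ?_
    exact mul_comm _ _
  rw [h3] at h2
  have h4 : muG {m + 2} F g = muG ((m + 2) ::ₘ 0) F g := rfl
  rw [h4, h]
  have h5 : (if F = 0 then (0 : ℝ) else muG ((m + 3) ::ₘ 0) (F - 1) g) =
      (if F = 0 then 0 else muG {m + 3} (F - 1) g) := rfl
  have h6 : ∑ x ∈ antidiagonal m, muG (x.1 ::ₘ x.2 ::ₘ 0) F (g - 1) =
      ∑ z ∈ antidiagonal m, muG {z.1, z.2} F (g - 1) := rfl
  rw [h5, h6]
  linarith

theorem oth_odd (m F g g' : ℕ) (h : ¬ Even (F + m)) :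
    ∑ z ∈ antidiagonal m, muG {z.1, z.2} F g + ∑ z ∈ antidiagonal m, LL 1 {z.1} {z.2} F g' = 0 := by
  rw [sum_eq_zero, sum_eq_zero, add_zero]
  · intro z hz
    rw [HasAntidiagonal.mem_antidiagonal] at hz
    unfold LL
    refine sum_eq_zero fun f hf => sum_eq_zero fun e _ => ?_
    rw [HasAntidiagonal.mem_antidiagonal] at hf
    split_ifs
    · by_cases h1 : Even (f.1 + z.1)
      · have h2 : ¬ Even (f.2 + z.2) := by
          intro h2
          apply h
          have h3 : F + m = f.1 + z.1 + (f.2 + z.2) := by omega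
          rw [h3]
          exact h1.add h2
        rw [muG_odd (P := {z.2}) (by rwa [Multiset.sum_singleton]), mul_zero]
      · rw [muG_odd (P := {z.1}) (by rwa [Multiset.sum_singleton]), zero_mul]
    · rfl
  · intro z hz
    rw [HasAntidiagonal.mem_antidiagonal] at hz
    refine muG_odd ?_ g
    have h1 : (({z.1, z.2} : Multiset ℕ)).sum = z.1 + z.2 := by simp
    rw [h1, hz]
    exact h

end SYS.Num
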